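import Pool.Agent.Lib.MP_452a87_nt.SpecK

/-!
# MP_452a87_nt, K/BxF (helper68)
-/

set_option autoImplicit false

namespace Pool.Agent.SMQ

open MvPolynomial

theorem pBxF : S_BxF := by
  classical
  intro ι _ a B
  let S : Finset (ι →₀ ℕ) := Finset.Icc 0 (Finsupp.equivFunOnFinite.symm fun _ => a)
  let Φ : (S → Fin (2 ^ B)) → MvPolynomial ι ℤ := fun φ => ∑ m : S, monomial m.1 ((φ m : ℕ) : ℤ)
  refine (Set.finite_range Φ).subset ?_
  rintro P ⟨hP1, hP2⟩
  have hsupp : P.support ⊆ S := by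
    intro m hm
    rw [Finset.mem_Icc]
    refine ⟨zero_le, fun i => ?_⟩
    have h1 := le_totalDegree hm
    rw [Finsupp.sum_fintype _ _ fun _ => rfl] at h1
    exact (Finset.single_le_sum (f := fun i => m i) (fun _ _ => Nat.zero_le _)
      (Finset.mem_univ i)).trans (h1.trans hP1)
  refine ⟨fun m => ⟨(P.coeff m.1).toNat, ?_⟩, ?_⟩
  · have h1 := hP2 m.1
    have h2 : ((P.coeff m.1).toNat : ℤ) < 2 ^ B := by
      rw [Int.toNat_of_nonneg h1.1]
      exact h1.2
    exact_mod_cast h2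
  · change ∑ m : S, monomial m.1 (((P.coeff m.1).toNat : ℕ) : ℤ) = P
    have h1 : ∀ m : S, monomial m.1 (((P.coeff m.1).toNat : ℕ) : ℤ) =
        monomial m.1 (P.coeff m.1) := fun m => by
      rw [Int.toNat_of_nonneg (hP2 m.1).1]
    rw [Finset.sum_congr rfl fun m _ => h1 m,
      Finset.sum_coe_sort S (fun m => monomial m (P.coeff m))]
    conv_rhs => rw [P.as_sum]
    refine (Finset.sum_subset hsupp fun m _ hm => ?_).symm
    rw [notMem_support_iff.1 hm, monomial_zero]

end Pool.Agent.SMQ
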