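import Pool.Agent.Lib.MP_452a87_nt.SpecK

/-!
# MP_452a87_nt, K/L1s (helper68)
-/

set_option autoImplicit false

namespace Pool.Agent.SMQ

open MvPolynomial

theorem pL1s : S_L1s := by
  classical
  intro ι _ f d hf
  have hm : ∀ m ∈ f.support, ∀ i, m i ≤ d := by
    intro m hm i
    have h1 := le_totalDegree hm
    rw [Finsupp.sum_fintype _ _ fun _ => rfl] at h1
    exact (Finset.single_le_sum (f := fun i => m i) (fun _ _ => Nat.zero_le _)
      (Finset.mem_univ i)).trans (h1.trans hf.1)
  have hcard : f.support.card ≤ (d + 1) ^ Fintype.card ι := by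
    have h1 : f.support.card ≤ (Finset.univ : Finset (ι → Fin (d + 1))).card := by
      refine Finset.card_le_card_of_injOn (fun m i => Fin.ofNat (d + 1) (m i))
        (fun _ _ => Finset.mem_coe.2 (Finset.mem_univ _)) ?_
      intro m hm1 m' hm' heq
      ext i
      have h2 := congrArg Fin.val (congrFun heq i)
      simp only [Fin.val_ofNat] at h2
      rwa [Nat.mod_eq_of_lt (Nat.lt_succ_of_le (hm m hm1 i)),
        Nat.mod_eq_of_lt (Nat.lt_succ_of_le (hm m' hm' i))] at h2
    rwa [Finset.card_univ, Fintype.card_fun, Fintype.card_fin] at h1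
  have h2 : l1 f ≤ f.support.card * 2 ^ d := by
    unfold l1
    rw [← smul_eq_mul]
    refine Finset.sum_le_card_nsmul _ _ _ fun m _ => ?_
    have := hf.2 m
    rw [Int.abs_eq_natAbs] at this
    exact_mod_cast this
  refine h2.trans ?_
  calc f.support.card * 2 ^ d ≤ (d + 1) ^ Fintype.card ι * 2 ^ d := Nat.mul_le_mul_right _ hcard
    _ ≤ (2 ^ d) ^ Fintype.card ι * 2 ^ d :=
        Nat.mul_le_mul_right _ (Nat.pow_le_pow_left (Nat.lt_two_pow_self (n := d)) _)
    _ = 2 ^ ((Fintype.card ι + 1) * d) := by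
        rw [← pow_mul, ← pow_add]
        congr 1
        ring

end Pool.Agent.SMQ
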