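import Pool.Agent.Lib.MP_452a87_nt.K.L1a

/-!
# MP_452a87_nt, K: the polynomial with all coefficients one (helper68)
-/

set_option autoImplicit false

namespace Pool.Agent.SMQ.Bx68

open MvPolynomial

/-- the polynomial with coefficient `1` in total degree at most `a` -/
theorem exists_J (ι : Type) [Fintype ι] (a : ℕ) : ∃ J : MvPolynomial ι ℤ, J.totalDegree ≤ a ∧
    (∀ m : ι →₀ ℕ, ∑ i, m i ≤ a → J.coeff m = 1) ∧
      ∀ m : ι →₀ ℕ, ¬ (∑ i, m i ≤ a) → J.coeff m = 0 := by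
  classical
  have hfin : ({m : ι →₀ ℕ | ∑ i, m i ≤ a} : Set (ι →₀ ℕ)).Finite := by
    refine (Set.finite_Icc (0 : ι →₀ ℕ) (Finsupp.equivFunOnFinite.symm fun _ => a)).subset ?_
    intro m hm
    rw [Set.mem_Icc]
    refine ⟨zero_le, fun i => ?_⟩
    exact (Finset.single_le_sum (f := fun i => m i) (fun _ _ => Nat.zero_le _)
      (Finset.mem_univ i)).trans hm
  have hcoeff : ∀ m : ι →₀ ℕ, (∑ e ∈ hfin.toFinset, monomial e (1 : ℤ)).coeff m =
      if ∑ i, m i ≤ a then 1 else 0 := by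
    intro m
    rw [coeff_sum]
    simp only [coeff_monomial]
    rw [Finset.sum_ite_eq']
    simp only [Set.Finite.mem_toFinset, Set.mem_setOf_eq]
  refine ⟨∑ m ∈ hfin.toFinset, monomial m 1, ?_, ?_, ?_⟩
  · refine totalDegree_finsetSum_le fun m hm => ?_
    refine (totalDegree_monomial_le m 1).trans ?_
    rw [Finsupp.sum_fintype _ _ fun _ => rfl]
    exact hfin.mem_toFinset.1 hm
  · intro m hm
    rw [hcoeff, if_pos hm]
  · intro m hm
    rw [hcoeff, if_neg hm]

theorem coeff_zero_of {ι : Type} [Fintype ι] {P : MvPolynomial ι ℤ} {a : ℕ}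
    (hP : P.totalDegree ≤ a) {m : ι →₀ ℕ} (hm : ¬ (∑ i, m i ≤ a)) : P.coeff m = 0 := by
  by_contra h
  have h1 := le_totalDegree (mem_support_iff.2 h)
  rw [Finsupp.sum_fintype _ _ fun _ => rfl] at h1
  exact hm (h1.trans hP)

end Pool.Agent.SMQ.Bx68
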