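import Pool.Agent.Lib.MP_452a87_nt.SpecK

set_option autoImplicit false

namespace Pool.Agent.SMQ

open MvPolynomial

namespace EAux

/-- The substitution homomorphism. -/
noncomputable def Ph {ι : Type} [Fintype ι] {r : ℕ} (ξ : ι → ℂ) (z : ℂ) :
    MvPolynomial (Option (BU ι r)) ℤ →ₐ[ℤ] MvPolynomial (Fin r × ι) ℂ :=
  aeval (ev (C z : MvPolynomial (Fin r × ι) ℂ)
    (Sum.elim (fun p => X p) (fun i => ∑ j, X (i, j) * C (ξ j))))

theorem evalPh {ι : Type} [Fintype ι] {r : ℕ} (ξ : ι → ℂ) (z : ℂ) (u : Fin r × ι → ℂ)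
    (P : MvPolynomial (Option (BU ι r)) ℤ) :
    eval u (Ph ξ z P) = aeval (ev z (Sum.elim u (psi u ξ))) P := by
  unfold Ph
  induction P using MvPolynomial.induction_on with
  | C a => simp
  | add p q hp hq => simp only [map_add, hp, hq]
  | mul_X p i hp =>
    rw [map_mul, map_mul, hp, map_mul]
    congr 1
    rcases i with _ | (p | i)
    · simp
    · simp
    · simp [psi]

theorem Ph_eq_zero {ι : Type} [Fintype ι] {r : ℕ} (ξ : ι → ℂ) (z : ℂ)
    (P : MvPolynomial (Option (BU ι r)) ℤ) :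
    Ph ξ z P = 0 ↔ ∀ u : Fin r × ι → ℂ, aeval (ev z (Sum.elim u (psi u ξ))) P = 0 := by
  constructor
  · intro h u
    rw [← evalPh, h, map_zero]
  · intro h
    apply MvPolynomial.funext
    intro u
    rw [evalPh, h u, map_zero]

theorem numB (v K : ℕ) (hK : 1 ≤ K) :
    ((K + 1) * (2 * K + 1) ^ K) ^ (2 * v) * 2 ^ K ≤ 2 ^ ((6 * v + 1) * K ^ 2) := by
  have h1 : K + 1 ≤ 2 ^ K := Nat.lt_two_pow_self
  have h2 : 2 * K + 1 ≤ 2 ^ (2 * K) := Nat.lt_two_pow_self
  have h3 : (K + 1) * (2 * K + 1) ^ K ≤ 2 ^ (3 * K ^ 2) := by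
    calc (K + 1) * (2 * K + 1) ^ K ≤ 2 ^ K * (2 ^ (2 * K)) ^ K :=
          Nat.mul_le_mul h1 (Nat.pow_le_pow_left h2 _)
      _ = 2 ^ (K + 2 * K * K) := by rw [← pow_mul, ← pow_add]
      _ ≤ 2 ^ (3 * K ^ 2) := by
          refine Nat.pow_le_pow_right (by norm_num) ?_
          nlinarith
  calc ((K + 1) * (2 * K + 1) ^ K) ^ (2 * v) * 2 ^ K ≤ (2 ^ (3 * K ^ 2)) ^ (2 * v) * 2 ^ K :=
        Nat.mul_le_mul_right _ (Nat.pow_le_pow_left h3 _)
    _ = 2 ^ (3 * K ^ 2 * (2 * v) + K) := by rw [← pow_mul, ← pow_add]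
    _ ≤ 2 ^ ((6 * v + 1) * K ^ 2) := by
        refine Nat.pow_le_pow_right (by norm_num) ?_
        nlinarith

end EAux

theorem pE (hW : S_W) (hG2 : S_G2) : S_E := by
  classical
  intro ι _ _ r
  obtain ⟨C, hC, hCW⟩ := hW ι r
  set v := Fintype.card (Option (BU ι r)) with hv
  refine ⟨(6 * v + 1) * C ^ 2, ?_, ?_⟩
  · exact Nat.mul_pos (by omega) (pow_pos (by omega) 2)
  intro ξ s d f hs hd hPP hSz
  obtain ⟨W, hW0, ⟨hWd, hWc⟩, hWv⟩ := hCW ξ s d f hs hd hPP hSz
  set K := C * s * d with hK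
  have hK1 : 1 ≤ K := Nat.mul_pos (Nat.mul_pos (by omega) (by omega)) (by omega)
  obtain ⟨F, hF, hFW⟩ := WfDvdMonoid.exists_factors W hW0
  have hPhW : EAux.Ph ξ (aeval ξ f) W = 0 := (EAux.Ph_eq_zero _ _ _).2 hWv
  have hPhF : EAux.Ph ξ (aeval ξ f) F.prod = 0 := by
    obtain ⟨t, ht⟩ := hFW.symm
    rw [← ht, map_mul, hPhW, zero_mul]
  rw [map_multiset_prod, Multiset.prod_eq_zero_iff, Multiset.mem_map] at hPhF
  obtain ⟨E, hEF, hE0⟩ := hPhF
  have hEW : E ∣ W := (Multiset.dvd_prod hEF).trans hFW.dvd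
  obtain ⟨Q, hQ⟩ := hEW
  have hE1 : E ≠ 0 := (hF E hEF).ne_zero
  have hQ0 : Q ≠ 0 := by
    rintro rfl
    rw [mul_zero] at hQ
    exact hW0 hQ
  have hdeg : E.totalDegree ≤ K := by
    have h1 : (E * Q).totalDegree = E.totalDegree + Q.totalDegree := totalDegree_mul_of_isDomain hE1 hQ0
    rw [← hQ] at h1
    omega
  refine ⟨E, hF E hEF, ?_, ?_, (EAux.Ph_eq_zero _ _ _).1 hE0⟩
  · calc E.totalDegree ≤ C * s * d := hdeg
      _ ≤ (6 * v + 1) * C ^ 2 * s * d := by
          refine Nat.mul_le_mul_right _ (Nat.mul_le_mul_right _ ?_)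
          nlinarith [Nat.zero_le (v * C ^ 2)]
  · -- the coefficients
    let e : Option (BU ι r) ≃ Fin v := Fintype.equivFin _
    have hren : rename e E * rename e Q = rename e W := by rw [← map_mul, ← hQ]
    have hQ' : rename e Q ≠ 0 := by
      rw [Ne, map_eq_zero_iff _ (rename_injective _ e.injective)]
      exact hQ0
    have hco : ∀ (P : MvPolynomial (Option (BU ι r)) ℤ) (m : Fin v →₀ ℕ),
        (rename e P).coeff m = P.coeff (m.mapDomain e.symm) := by
      intro P m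
      have h1 : m = (m.mapDomain e.symm).mapDomain e := by
        rw [← Finsupp.mapDomain_comp]
        simp
      conv_lhs => rw [h1]
      exact coeff_rename_mapDomain _ e.injective _ _
    have hG := hG2 v K (rename e E) (rename e Q) (2 ^ K) hQ' (by
        intro i
        rw [hren]
        calc degreeOf i (rename e W) ≤ (rename e W).totalDegree := degreeOf_le_totalDegree _ _
          _ ≤ W.totalDegree := totalDegree_rename_le _ _
          _ ≤ K := hWd) (by
        intro m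
        rw [hren, hco]
        exact hWc _)
    intro m
    have h2 := hG (m.mapDomain e)
    rw [hco, ← Finsupp.mapDomain_comp] at h2
    have h3 : (⇑e.symm ∘ ⇑e) = id := by
      funext i
      simp
    rw [h3, Finsupp.mapDomain_id] at h2
    refine h2.trans ?_
    have h4 := EAux.numB v K hK1
    have h5 : ((((K + 1) * (2 * K + 1) ^ K) ^ (2 * v) : ℕ) : ℤ) * 2 ^ K ≤ 2 ^ ((6 * v + 1) * K ^ 2) := by
      exact_mod_cast h4
    refine h5.trans (le_of_eq ?_)
    congr 1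
    rw [hK]
    ring

end Pool.Agent.SMQ
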