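import Pool.Agent.Lib.MP_452a87_nt.SpecK

/-!
# MP_452a87_nt, K/G1 (helper68)
-/

set_option autoImplicit false

namespace Pool.Agent.SMQ

private theorem coeff_prod_le {κ : Type} (T : Finset κ) (s b : κ → ℝ) (B : ℝ)
    (hs : ∀ j ∈ T, |s j| ≤ 1) (hb : ∀ j ∈ T, 1 + |b j| ≤ B) (e : ℕ) :
    |(∏ j ∈ T, (Polynomial.C (s j) * (Polynomial.X - Polynomial.C (b j)))).coeff e| ≤
      B ^ T.card := by
  classical
  induction T using Finset.induction_on generalizing e with
  | empty =>
    rw [Finset.prod_empty, Finset.card_empty, pow_zero, Polynomial.coeff_one]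
    split_ifs
    · rw [abs_one]
    · rw [abs_zero]
      exact zero_le_one
  | insert j T hj ih =>
    have ih' := ih (fun j hj => hs j (Finset.mem_insert_of_mem hj))
      (fun j hj => hb j (Finset.mem_insert_of_mem hj))
    rw [Finset.prod_insert hj, Finset.card_insert_of_notMem hj, mul_assoc, Polynomial.coeff_C_mul,
      abs_mul]
    set Q := ∏ j ∈ T, (Polynomial.C (s j) * (Polynomial.X - Polynomial.C (b j))) with hQ
    have h1 : |((Polynomial.X - Polynomial.C (b j)) * Q).coeff e| ≤ B ^ T.card +
        |b j| * B ^ T.card := by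
      rw [sub_mul, Polynomial.coeff_sub, Polynomial.coeff_C_mul]
      refine (abs_sub _ _).trans (add_le_add ?_ ?_)
      · rcases e with _ | e
        · rw [Polynomial.mul_coeff_zero, Polynomial.coeff_X_zero, zero_mul, abs_zero]
          exact (abs_nonneg _).trans (ih' 0)
        · rw [Polynomial.coeff_X_mul]
          exact ih' e
      · rw [abs_mul]
        exact mul_le_mul_of_nonneg_left (ih' e) (abs_nonneg _)
    have hB0 : 0 ≤ B ^ T.card := (abs_nonneg _).trans (ih' 0)
    have h2 := hs j (Finset.mem_insert_self _ _)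
    have h3 := hb j (Finset.mem_insert_self _ _)
    calc |s j| * |((Polynomial.X - Polynomial.C (b j)) * Q).coeff e|
        ≤ 1 * (B ^ T.card + |b j| * B ^ T.card) := mul_le_mul h2 h1 (abs_nonneg _) zero_le_one
      _ = (1 + |b j|) * B ^ T.card := by ring
      _ ≤ B * B ^ T.card := mul_le_mul_of_nonneg_right h3 hB0
      _ = B ^ (T.card + 1) := by ring

theorem pG1 : S_G1 := by
  classical
  intro k c a H ha hak hH e he
  have hH0 : (0 : ℤ) ≤ H := (abs_nonneg _).trans (hH 0)
  set v : Fin (k + 1) → ℝ := fun i => (a i : ℝ) with hv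
  set P : Polynomial ℝ := ∑ e ∈ Finset.range (k + 1), Polynomial.C (c e : ℝ) * Polynomial.X ^ e
    with hP
  have hvi : Set.InjOn v (Finset.univ : Finset (Fin (k + 1))) := by
    intro i _ j _ hij
    apply ha
    exact Nat.cast_injective (R := ℝ) (hij : (a i : ℝ) = a j)
  have hdeg : P.degree < (Finset.univ : Finset (Fin (k + 1))).card := by
    rw [Finset.card_univ, Fintype.card_fin]
    refine (Polynomial.degree_sum_fin_lt (n := k + 1) fun i => (c i : ℝ)).trans_eq' ?_
    rw [hP, Finset.sum_range]
  have hint := Lagrange.eq_interpolate hvi hdeg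
  have hcoef : P.coeff e = c e := by
    rw [hP, Polynomial.finset_sum_coeff]
    simp only [Polynomial.coeff_C_mul, Polynomial.coeff_X_pow, mul_ite, mul_one, mul_zero]
    rw [Finset.sum_ite_eq, if_pos he]
  have hev : ∀ i, |P.eval (v i)| ≤ H := by
    intro i
    have h1 : P.eval (v i) = ((∑ e ∈ Finset.range (k + 1), c e * (a i : ℤ) ^ e : ℤ) : ℝ) := by
      rw [hP, Polynomial.eval_finset_sum, Int.cast_sum]
      refine Finset.sum_congr rfl fun e _ => ?_
      rw [Polynomial.eval_mul, Polynomial.eval_C, Polynomial.eval_pow, Polynomial.eval_X]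
      push_cast
      rfl
    rw [h1, ← Int.cast_abs]
    exact_mod_cast hH i
  have hbasis : ∀ i, |(Lagrange.basis Finset.univ v i).coeff e| ≤ (2 * k + 1 : ℝ) ^ k := by
    intro i
    have h1 := coeff_prod_le (Finset.univ.erase i) (fun j => (v i - v j)⁻¹) v (2 * k + 1 : ℝ) ?_ ?_ e
    · rw [Finset.card_erase_of_mem (Finset.mem_univ _), Finset.card_univ, Fintype.card_fin,
        Nat.add_sub_cancel] at h1
      exact h1
    · intro j hj
      rw [abs_inv]
      apply inv_le_one_of_one_le₀
      have hne : a i ≠ a j := fun h => (Finset.ne_of_mem_erase hj) (ha h).symm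
      have h2 : (1 : ℤ) ≤ |(a i : ℤ) - a j| := by
        apply Int.one_le_abs
        omega
      have h3 : ((|(a i : ℤ) - a j| : ℤ) : ℝ) = |v i - v j| := by
        rw [Int.cast_abs]
        push_cast
        rfl
      rw [← h3]
      exact_mod_cast h2
    · intro j _
      have h2 : (a j : ℝ) ≤ 2 * k := by exact_mod_cast hak j
      change 1 + |(a j : ℝ)| ≤ _
      rw [abs_of_nonneg (Nat.cast_nonneg _)]
      linarith
  have h4 : |(c e : ℝ)| ≤ (((k + 1) * (2 * k + 1) ^ k : ℕ) : ℝ) * H := by
    rw [← hcoef, hint, Lagrange.interpolate_apply, Polynomial.finset_sum_coeff]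
    refine (Finset.abs_sum_le_sum_abs _ _).trans ?_
    have h5 : ∀ i ∈ (Finset.univ : Finset (Fin (k + 1))), |(Polynomial.C (P.eval (v i)) *
        Lagrange.basis Finset.univ v i).coeff e| ≤ H * (2 * k + 1 : ℝ) ^ k := by
      intro i _
      rw [Polynomial.coeff_C_mul, abs_mul]
      exact mul_le_mul (hev i) (hbasis i) (abs_nonneg _) (by exact_mod_cast hH0)
    refine (Finset.sum_le_sum h5).trans (le_of_eq ?_)
    rw [Finset.sum_const, Finset.card_univ, Fintype.card_fin, nsmul_eq_mul]
    push_cast
    ring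
  rw [← Int.cast_abs] at h4
  exact_mod_cast h4

end Pool.Agent.SMQ
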