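import Pool.Agent.Lib.MP_452a87_nt.SpecK

set_option autoImplicit false

namespace Pool.Agent.SMQ

open MvPolynomial

namespace G2Aux

theorem evalCoeff {n k : ℕ} (p : Polynomial (MvPolynomial (Fin n) ℤ)) (hp : p.natDegree ≤ k) (a : ℕ)
    (m : Fin n →₀ ℕ) :
    (p.eval (a : MvPolynomial (Fin n) ℤ)).coeff m =
      ∑ e ∈ Finset.range (k + 1), (p.coeff e).coeff m * (a : ℤ) ^ e := by
  rw [Polynomial.eval_eq_sum_range' (Nat.lt_succ_of_le hp), MvPolynomial.coeff_sum]
  refine Finset.sum_congr rfl fun e _ => ?_
  have h : ((a : MvPolynomial (Fin n) ℤ)) ^ e = C ((a : ℤ) ^ e) := by simp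
  rw [h, mul_comm, coeff_C_mul, mul_comm]

theorem nonroots {n k : ℕ} (q : Polynomial (MvPolynomial (Fin n) ℤ)) (hq : q ≠ 0) (hk : q.natDegree ≤ k) :
    ∃ a : Fin (k + 1) → ℕ, Function.Injective a ∧ (∀ i, a i ≤ 2 * k) ∧
      ∀ i, q.eval ((a i : ℕ) : MvPolynomial (Fin n) ℤ) ≠ 0 := by
  classical
  set S := (Finset.range (2 * k + 1)).filter (fun a : ℕ => q.eval (a : MvPolynomial (Fin n) ℤ) ≠ 0) with hS
  set T := (Finset.range (2 * k + 1)).filter (fun a : ℕ => ¬ q.eval (a : MvPolynomial (Fin n) ℤ) ≠ 0) with hT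
  have hST : S.card + T.card = 2 * k + 1 := by
    have := Finset.card_filter_add_card_filter_not (s := Finset.range (2 * k + 1))
      (fun a : ℕ => q.eval (a : MvPolynomial (Fin n) ℤ) ≠ 0)
    rw [Finset.card_range] at this
    exact this
  have hTc : T.card ≤ k := by
    have h1 : (T.image (fun a : ℕ => (a : MvPolynomial (Fin n) ℤ))).card = T.card :=
      Finset.card_image_of_injective _ Nat.cast_injective
    have h2 : (T.image (fun a : ℕ => (a : MvPolynomial (Fin n) ℤ))) ⊆ q.roots.toFinset := by
      intro x hx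
      rw [Finset.mem_image] at hx
      obtain ⟨a, ha, rfl⟩ := hx
      rw [hT, Finset.mem_filter, not_not] at ha
      rw [Multiset.mem_toFinset, Polynomial.mem_roots hq]
      exact ha.2
    calc T.card = _ := h1.symm
      _ ≤ q.roots.toFinset.card := Finset.card_le_card h2
      _ ≤ Multiset.card q.roots := Multiset.toFinset_card_le _
      _ ≤ q.natDegree := Polynomial.card_roots' q
      _ ≤ k := hk
  have hSc : k + 1 ≤ S.card := by omega
  obtain ⟨S', hS', hcard⟩ := Finset.exists_subset_card_eq hSc
  let f := S'.orderEmbOfFin hcard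
  refine ⟨fun i => f i, f.injective, fun i => ?_, fun i => ?_⟩
  · have h := hS' (Finset.orderEmbOfFin_mem S' hcard i)
    rw [hS, Finset.mem_filter, Finset.mem_range] at h
    exact Nat.lt_succ_iff.1 h.1
  · have h := hS' (Finset.orderEmbOfFin_mem S' hcard i)
    rw [hS, Finset.mem_filter] at h
    exact h.2

end G2Aux

theorem pG2 (hG1 : S_G1) : S_G2 := by
  intro n
  induction n with
  | zero =>
    intro k P Q H hQ _ hH m
    have hm : m = 0 := Subsingleton.elim _ _
    subst hm
    have hP : P = C (P.coeff 0) := eq_C_of_isEmpty P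
    have hQ' : Q = C (Q.coeff 0) := eq_C_of_isEmpty Q
    have hq : Q.coeff 0 ≠ 0 := by
      intro h
      rw [h, C_0] at hQ'
      exact hQ hQ'
    have h1 := hH 0
    have h2 : (P * Q).coeff 0 = P.coeff 0 * Q.coeff 0 := by
      rw [hP, coeff_C_mul, coeff_C, if_pos rfl]
    rw [h2, abs_mul] at h1
    have h3 : 1 ≤ |Q.coeff 0| := Int.one_le_abs hq
    have h4 : |P.coeff 0| * 1 ≤ |P.coeff 0| * |Q.coeff 0| := mul_le_mul_of_nonneg_left h3 (abs_nonneg _)
    simp only [Nat.mul_zero, pow_zero, Nat.cast_one, one_mul]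
    linarith
  | succ n ih =>
    intro k P Q H hQ hdeg hH m
    set N : ℕ := (k + 1) * (2 * k + 1) ^ k with hN
    have hH0 : 0 ≤ H := le_trans (abs_nonneg _) (hH 0)
    by_cases hP0 : P = 0
    · rw [hP0, coeff_zero, abs_zero]
      positivity
    set p := finSuccEquiv ℤ n P with hp
    set q := finSuccEquiv ℤ n Q with hq
    have hw : finSuccEquiv ℤ n (P * Q) = p * q := map_mul _ _ _
    have hp0 : p ≠ 0 := by
      rw [hp]
      exact (map_ne_zero_iff _ (finSuccEquiv ℤ n).injective).2 hP0
    have hq0 : q ≠ 0 := by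
      rw [hq]
      exact (map_ne_zero_iff _ (finSuccEquiv ℤ n).injective).2 hQ
    have hwd : (p * q).natDegree ≤ k := by
      rw [← hw, natDegree_finSuccEquiv]
      exact hdeg 0
    have hsum : p.natDegree + q.natDegree ≤ k := by
      rw [← Polynomial.natDegree_mul hp0 hq0]
      exact hwd
    obtain ⟨a, hainj, hale, hane⟩ := G2Aux.nonroots (k := k) q hq0 (by omega)
    -- the coefficients of the values of the product
    have hWc : ∀ i m', |((p * q).eval ((a i : ℕ) : MvPolynomial (Fin n) ℤ)).coeff m'| ≤ N * H := by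
      intro i m'
      rw [G2Aux.evalCoeff (p * q) hwd]
      calc |∑ e ∈ Finset.range (k + 1), ((p * q).coeff e).coeff m' * ((a i : ℕ) : ℤ) ^ e|
          ≤ ∑ e ∈ Finset.range (k + 1), |((p * q).coeff e).coeff m' * ((a i : ℕ) : ℤ) ^ e| :=
            Finset.abs_sum_le_sum_abs _ _
        _ ≤ ∑ e ∈ Finset.range (k + 1), H * ((2 * k + 1 : ℕ) : ℤ) ^ k := by
            refine Finset.sum_le_sum fun e he => ?_
            rw [Finset.mem_range] at he
            rw [abs_mul]
            refine mul_le_mul ?_ ?_ (abs_nonneg _) hH0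
            · rw [← hw, finSuccEquiv_coeff_coeff]
              exact hH _
            · rw [abs_of_nonneg (by positivity)]
              calc ((a i : ℕ) : ℤ) ^ e ≤ ((2 * k + 1 : ℕ) : ℤ) ^ e := by
                    refine pow_le_pow_left₀ (by positivity) ?_ _
                    have := hale i
                    push_cast
                    omega
                _ ≤ ((2 * k + 1 : ℕ) : ℤ) ^ k := by
                    refine pow_le_pow_right₀ ?_ (by omega)
                    push_cast
                    omega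
        _ = N * H := by
            rw [Finset.sum_const, Finset.card_range, hN]
            simp only [nsmul_eq_mul]
            push_cast
            ring
    -- the degrees of the values of the product
    have hWd : ∀ i j, degreeOf j ((p * q).eval ((a i : ℕ) : MvPolynomial (Fin n) ℤ)) ≤ k := by
      intro i j
      rw [degreeOf_le_iff]
      intro m' hm'
      rw [mem_support_iff, G2Aux.evalCoeff (p * q) hwd] at hm'
      obtain ⟨e, _, he⟩ := Finset.exists_ne_zero_of_sum_ne_zero hm'
      have h1 : ((p * q).coeff e).coeff m' ≠ 0 := left_ne_zero_of_mul he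
      rw [← hw, finSuccEquiv_coeff_coeff] at h1
      have h2 := (degreeOf_le_iff.1 (hdeg j.succ)) _ (mem_support_iff.2 h1)
      rwa [Finsupp.cons_succ] at h2
    -- the coefficients of the values of `P`
    have hPc : ∀ i m', |(p.eval ((a i : ℕ) : MvPolynomial (Fin n) ℤ)).coeff m'| ≤ (N ^ (2 * n) : ℕ) * (N * H) := by
      intro i m'
      refine ih k (p.eval ((a i : ℕ) : MvPolynomial (Fin n) ℤ)) (q.eval ((a i : ℕ) : MvPolynomial (Fin n) ℤ))
        (N * H) (hane i) ?_ ?_ m'
      · intro j
        rw [← Polynomial.eval_mul]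
        exact hWd i j
      · intro m''
        rw [← Polynomial.eval_mul]
        exact hWc i m''
    have hmm : P.coeff m = (p.coeff (m 0)).coeff m.tail := by
      rw [hp, finSuccEquiv_coeff_coeff, Finsupp.cons_tail]
    rw [hmm]
    by_cases hm0 : m 0 ∈ Finset.range (k + 1)
    · have h := hG1 k (fun e => (p.coeff e).coeff m.tail) a ((N ^ (2 * n) : ℕ) * (N * H)) hainj hale
        (fun i => by
          rw [← G2Aux.evalCoeff p (by omega)]
          exact hPc i m.tail) (m 0) hm0
      refine h.trans (le_of_eq ?_)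
      rw [← hN]
      push_cast
      ring
    · rw [Finset.mem_range, not_lt] at hm0
      rw [Polynomial.coeff_eq_zero_of_natDegree_lt (by omega), coeff_zero, abs_zero]
      positivity

end Pool.Agent.SMQ
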