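import Pool.Agent.Lib.MP_452a87_nt.K.Bx68

/-!
# MP_452a87_nt, K/K2 (helper68)
-/

set_option autoImplicit false

namespace Pool.Agent.SMQ

open MvPolynomial

theorem pK2 (hB : S_BxF) (_ : S_L1a) : S_K2 := by
  classical
  intro ι Ω Ω' _ _ _ x x' f d h a B hS hfx hfx' hd hl hda hhB
  obtain ⟨J, hJd, hJ1, hJ0⟩ := Bx68.exists_J ι a
  have hP : ∀ v : Ω', ∃ P : MvPolynomial ι ℤ,
      v ∈ (fun P : MvPolynomial ι ℤ => aeval x' P) '' Bx ι a B → P ∈ Bx ι a B ∧
        aeval x' P = v := by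
    intro v
    by_cases hv : v ∈ (fun P : MvPolynomial ι ℤ => aeval x' P) '' Bx ι a B
    · obtain ⟨P, hP, hPv⟩ := hv
      exact ⟨P, fun _ => ⟨hP, hPv⟩⟩
    · exact ⟨0, fun h => absurd h hv⟩
  choose P hP using hP
  have hR : ∀ v : Ω, ∃ R : MvPolynomial ι ℤ,
      v ∈ (fun P : MvPolynomial ι ℤ => aeval x P) '' Bx ι (a - d) (B - h) →
        R ∈ Bx ι (a - d) (B - h) ∧ aeval x R = v := by
    intro v
    by_cases hv : v ∈ (fun P : MvPolynomial ι ℤ => aeval x P) '' Bx ι (a - d) (B - h)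
    · obtain ⟨P, hP, hPv⟩ := hv
      exact ⟨P, fun _ => ⟨hP, hPv⟩⟩
    · exact ⟨0, fun h => absurd h hv⟩
  choose R hR using hR
  unfold Kc
  rw [← Set.ncard_prod]
  refine Set.ncard_le_ncard_of_injOn
    (fun p => aeval x (P p.1 + f * R p.2 + C (2 ^ B) * J)) ?_ ?_ ((hB ι a (B + 2)).image _)
  · rintro ⟨v, w⟩ ⟨hv, hw⟩
    obtain ⟨⟨p1, p2⟩, -⟩ := hP v hv
    obtain ⟨⟨r1, r2⟩, -⟩ := hR w hw
    refine ⟨_, ⟨?_, fun m => ?_⟩, rfl⟩
    · refine (totalDegree_add _ _).trans (max_le ((totalDegree_add _ _).trans (max_le p1 ?_)) ?_)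
      · exact (totalDegree_mul _ _).trans ((Nat.add_le_add hd r1).trans (by omega))
      · refine (totalDegree_mul _ _).trans ?_
        rw [totalDegree_C, zero_add]
        exact hJd
    · change 0 ≤ coeff m (P v + f * R w + C (2 ^ B) * J) ∧
        coeff m (P v + f * R w + C (2 ^ B) * J) < 2 ^ (B + 2)
      rw [coeff_add, coeff_add, coeff_C_mul]
      have hfR : |coeff m (f * R w)| < 2 ^ B := by
        have h1 : ∀ m, |(R w).coeff m| ≤ 2 ^ (B - h) - 1 := fun m => by
          rw [abs_of_nonneg (r2 m).1]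
          have := (r2 m).2
          omega
        have h2 := L1a68.coeff_mul_le f (R w) _ h1 m
        have h3 : (l1 f : ℤ) ≤ 2 ^ h := by exact_mod_cast hl
        have h4 : (0 : ℤ) ≤ 2 ^ (B - h) - 1 := (abs_nonneg _).trans (h1 0)
        have h5 : (2 : ℤ) ^ h * (2 ^ (B - h) - 1) < 2 ^ B := by
          have h6 : (2 : ℤ) ^ h * 2 ^ (B - h) = 2 ^ B := by
            rw [← pow_add]
            congr 1
            omega
          have h7 : (0 : ℤ) < 2 ^ h := by positivity
          rw [mul_sub, h6, mul_one]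
          linarith
        exact h2.trans_lt ((mul_le_mul_of_nonneg_right h3 h4).trans_lt h5)
      have h8 : (0 : ℤ) < 2 ^ B := by positivity
      have h9 : (2 : ℤ) ^ (B + 2) = 4 * 2 ^ B := by ring
      rw [abs_lt] at hfR
      by_cases hm : ∑ i, m i ≤ a
      · rw [hJ1 m hm]
        have := p2 m
        constructor <;> linarith [this.1, this.2, hfR.1, hfR.2]
      · rw [hJ0 m hm, Bx68.coeff_zero_of p1 hm,
          Bx68.coeff_zero_of (a := a) (P := f * R w) ((totalDegree_mul _ _).trans (by omega)) hm]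
        constructor <;> linarith
  · rintro ⟨v, w⟩ ⟨hv, hw⟩ ⟨v', w'⟩ ⟨hv', hw'⟩ heq
    simp only at heq hv hw hv' hw'
    have h1 : aeval x (P v - P v' + f * (R w - R w')) = 0 := by
      have e : P v - P v' + f * (R w - R w') = (P v + f * R w + C (2 ^ B) * J) -
        (P v' + f * R w' + C (2 ^ B) * J) := by ring
      rw [e, map_sub, heq, sub_self]
    have h2 := hS _ h1
    rw [map_add, map_mul, hfx', zero_mul, add_zero, map_sub, (hP v hv).2, (hP v' hv').2,
      sub_eq_zero] at h2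
    subst h2
    rw [sub_self, zero_add, map_mul, map_sub, (hR w hw).2, (hR w' hw').2] at h1
    have h3 := (mul_eq_zero.1 h1).resolve_left hfx
    rw [sub_eq_zero] at h3
    rw [h3]

end Pool.Agent.SMQ
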