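import Pool.Agent.Lib.MP_452a87_nt.SpecK

/-!
# MP_452a87_nt, K/K3 (helper68)
-/

set_option autoImplicit false

namespace Pool.Agent.SMQ

open MvPolynomial

theorem pK3 (hM : S_KcM) (h2 : S_K2) : S_K3 := by
  intro ι Ω Ω' _ _ _ x x' f d h q s hS hfx hfx' hd hl hd1 hPP a B ha hB
  obtain ⟨m1, m2, m3⟩ := hM
  have key : ∀ i : ℕ, Kc x' a B ^ (i + 1) ≤ Kc x (a + i * d) (B + i * (h + 2) + 2) := by
    intro i
    induction i with
    | zero =>
      rw [zero_add, pow_one]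
      exact (m2 ι Ω Ω' x x' a B hS).trans (m1 ι Ω x _ _ _ _ (by omega) (by omega))
    | succ i ih =>
      have h3 := h2 ι Ω Ω' x x' f d h (a + (i + 1) * d) (B + (i + 1) * (h + 2)) hS hfx hfx' hd hl
        (by nlinarith) (by nlinarith)
      have e1 : a + (i + 1) * d - d = a + i * d := by
        rw [add_mul, one_mul, ← add_assoc, Nat.add_sub_cancel]
      have e2 : B + (i + 1) * (h + 2) - h = B + i * (h + 2) + 2 := by
        rw [add_mul, one_mul]
        omega
      rw [e1, e2] at h3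
      have h4 : Kc x' a B ≤ Kc x' (a + (i + 1) * d) (B + (i + 1) * (h + 2)) :=
        m1 ι Ω' x' _ _ _ _ (by omega) (by omega)
      calc Kc x' a B ^ (i + 1 + 1) = Kc x' a B * Kc x' a B ^ (i + 1) := by rw [pow_succ, mul_comm]
        _ ≤ Kc x' (a + (i + 1) * d) (B + (i + 1) * (h + 2)) *
            Kc x (a + i * d) (B + i * (h + 2) + 2) := Nat.mul_le_mul h4 ih
        _ ≤ _ := h3
  set i := a / d with hi
  have hid : i * d ≤ a := Nat.div_mul_le_self a d
  have hid' : a ≤ (i + 1) * d := by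
    have := Nat.lt_div_mul_add (a := a) (b := d) (by omega)
    rw [← hi] at this
    rw [add_mul, one_mul]
    omega
  have h5 := (key i).trans (hPP (a + i * d) (B + i * (h + 2) + 2) (by omega) (by omega))
  have hA : a + i * d ≤ 2 * a := by omega
  have h6 : (a + i * d) ^ (q + 1) ≤ 2 ^ (q + 1) * (a ^ q * ((i + 1) * d)) := by
    calc (a + i * d) ^ (q + 1) ≤ (2 * a) ^ (q + 1) := Nat.pow_le_pow_left hA _
      _ = 2 ^ (q + 1) * (a ^ q * a) := by rw [mul_pow, pow_succ a q]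
      _ ≤ _ := Nat.mul_le_mul_left _ (Nat.mul_le_mul_left _ hid')
  have h7 : d * (B + i * (h + 2) + 2 + (a + i * d)) ≤ (h + 2 + 3 * d) * (B + a) := by
    have h8 : d * i * (h + 2) ≤ a * (h + 2) := Nat.mul_le_mul_right _ (by rw [mul_comm]; exact hid)
    have h9 : d * 2 ≤ d * (2 * B) := Nat.mul_le_mul_left _ (by omega)
    have h10 : d * (a + i * d) ≤ d * (2 * a) := Nat.mul_le_mul_left _ hA
    nlinarith
  have h8 : s * ((a + i * d) ^ (q + 1) * (B + i * (h + 2) + 2) + (a + i * d) ^ (q + 1 + 1)) ≤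
      (2 ^ (q + 1) * s * (h + 2 + 3 * d) * (a ^ q * B + a ^ (q + 1))) * (i + 1) := by
    calc s * ((a + i * d) ^ (q + 1) * (B + i * (h + 2) + 2) + (a + i * d) ^ (q + 1 + 1))
        = s * ((a + i * d) ^ (q + 1) * (B + i * (h + 2) + 2 + (a + i * d))) := by ring
      _ ≤ s * (2 ^ (q + 1) * (a ^ q * ((i + 1) * d)) * (B + i * (h + 2) + 2 + (a + i * d))) :=
          Nat.mul_le_mul_left _ (Nat.mul_le_mul_right _ h6)
      _ = s * 2 ^ (q + 1) * a ^ q * (i + 1) * (d * (B + i * (h + 2) + 2 + (a + i * d))) := by ring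
      _ ≤ s * 2 ^ (q + 1) * a ^ q * (i + 1) * ((h + 2 + 3 * d) * (B + a)) :=
          Nat.mul_le_mul_left _ h7
      _ = _ := by ring
  have h9 : Kc x' a B ^ (i + 1) ≤
      (2 ^ (2 ^ (q + 1) * s * (h + 2 + 3 * d) * (a ^ q * B + a ^ (q + 1)))) ^ (i + 1) := by
    rw [← pow_mul]
    exact h5.trans (Nat.pow_le_pow_right (by norm_num) h8)
  exact (Nat.pow_le_pow_iff_left (Nat.succ_ne_zero i)).1 h9

end Pool.Agent.SMQ
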