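import Pool.Agent.Lib.MP_452a87_nt.SpecK

/-!
# MP_452a87_nt, K/K4: the initial growth property (helper82)
-/

set_option autoImplicit false

namespace Pool.Agent.SMQ

open MvPolynomial

namespace K4Aux

/-- (i) Every tuple of length `t` has the growth property with exponent `t`. -/
theorem gen (hQT : S_QT) (Ω : Type) [Field Ω] :
    ∀ (t : ℕ) (g : Fin t → Ω), ∃ c : ℕ, QQ g t c := by
  intro t
  induction t with
  | zero =>
    intro g
    exact ⟨2, hQT.1 Ω g⟩
  | succ t ih =>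
    intro g
    obtain ⟨c, hc⟩ := ih (Fin.tail g)
    refine ⟨2 * c, ?_⟩
    have h := hQT.2 t Ω (Fin.tail g) (g 0) t c hc
    rwa [Fin.cons_self_tail] at h

/-- Algebraic elements stay algebraic over a larger field. -/
theorem alg_mono {Ω : Type} [Field Ω] [CharZero Ω] {A B : IntermediateField ℚ Ω} (h : A ≤ B)
    {z : Ω} (hz : IsAlgebraic A z) : IsAlgebraic B z := by
  obtain ⟨p, hp, hpz⟩ := hz
  let φ : A →+* B := (IntermediateField.inclusion h).toRingHom
  refine ⟨p.map φ, (Polynomial.map_ne_zero_iff φ.injective).2 hp, ?_⟩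
  rw [Polynomial.aeval_def, Polynomial.eval₂_map]
  exact hpz

/-- (ii) Adjoining algebraic elements. -/
theorem alg (hQA : S_QA) (Ω : Type) [Field Ω] [CharZero Ω] (t : ℕ) (g : Fin t → Ω) (c₀ : ℕ)
    (hg : QQ g t c₀) : ∀ (n : ℕ) (z : Fin n → Ω),
    (∀ i, IsAlgebraic (IntermediateField.adjoin ℚ (Set.range g)) (z i)) →
    ∃ (N : ℕ) (X : Fin N → Ω) (c : ℕ) (e : Fin n → Fin N), QQ X t c ∧
      Set.range g ⊆ Set.range X ∧ Function.Injective e ∧ X ∘ e = z := by
  intro n
  induction n with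
  | zero =>
    intro z _
    refine ⟨t, g, c₀, Fin.elim0, hg, le_rfl, fun i => i.elim0, ?_⟩
    funext i
    exact i.elim0
  | succ n ih =>
    intro z hz
    obtain ⟨N, X, c, e, hX, hr, he, hXe⟩ := ih (Fin.tail z) (fun i => hz i.succ)
    have h0 : IsAlgebraic (IntermediateField.adjoin ℚ (Set.range X)) (z 0) :=
      alg_mono (IntermediateField.adjoin.mono ℚ _ _ hr) (hz 0)
    obtain ⟨c', hc'⟩ := hQA N Ω X (z 0) t c hX h0
    refine ⟨N + 1, Fin.cons (z 0) X, c', Fin.cons 0 (fun i => (e i).succ), hc', ?_, ?_, ?_⟩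
    · rintro _ ⟨i, rfl⟩
      obtain ⟨k, hk⟩ := hr ⟨i, rfl⟩
      exact ⟨k.succ, by rw [Fin.cons_succ, hk]⟩
    · intro i
      refine Fin.cases ?_ (fun i => ?_) i
      · intro k
        refine Fin.cases (fun _ => rfl) (fun k hk => ?_) k
        rw [Fin.cons_zero, Fin.cons_succ] at hk
        exact absurd hk.symm (Fin.succ_ne_zero _)
      · intro k
        refine Fin.cases (fun hk => ?_) (fun k hk => ?_) k
        · rw [Fin.cons_zero, Fin.cons_succ] at hk
          exact absurd hk (Fin.succ_ne_zero _)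
        · rw [Fin.cons_succ, Fin.cons_succ] at hk
          rw [he (Fin.succ_injective _ hk)]
    · funext i
      refine Fin.cases ?_ (fun i => ?_) i
      · show (Fin.cons (z 0) X : Fin (N + 1) → Ω) ((Fin.cons 0 fun i => (e i).succ :
          Fin (n + 1) → Fin (N + 1)) 0) = z 0
        rw [Fin.cons_zero, Fin.cons_zero]
      · show (Fin.cons (z 0) X : Fin (N + 1) → Ω) ((Fin.cons 0 fun i => (e i).succ :
          Fin (n + 1) → Fin (N + 1)) i.succ) = z i.succ
        rw [Fin.cons_succ, Fin.cons_succ]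
        exact congrFun hXe i

theorem rename_mem {ι : Type} {N : ℕ} (e : ι → Fin N) (he : Function.Injective e) (a B : ℕ)
    (P : MvPolynomial ι ℤ) (hP : P ∈ Bx ι a B) : rename e P ∈ Bs (Fin N) a B := by
  refine ⟨(totalDegree_rename_le e P).trans hP.1, fun m => ?_⟩
  by_cases h : ∃ u : ι →₀ ℕ, u.mapDomain e = m
  · obtain ⟨u, rfl⟩ := h
    rw [coeff_rename_mapDomain e he, abs_of_nonneg (hP.2 u).1]
    exact (hP.2 u).2.le
  · rw [coeff_rename_eq_zero e P m (fun u hu => absurd ⟨u, hu⟩ h), abs_zero]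
    positivity

/-- (iii) Comparison. -/
theorem Kc_le {ι Ω : Type} [Field Ω] (x : ι → Ω) {N : ℕ} (X : Fin N → Ω) (e : ι → Fin N)
    (he : Function.Injective e) (hX : X ∘ e = x) {t c : ℕ} (hQ : QQ X t c) (a B : ℕ)
    (ha : 1 ≤ a) (hB : 1 ≤ B) : Kc x a B ≤ 2 ^ (c * (a ^ t * B + a ^ (t + 1))) := by
  obtain ⟨hfin, hle⟩ := hQ a B ha hB
  refine le_trans (Set.ncard_le_ncard ?_ hfin) hle
  rintro _ ⟨P, hP, rfl⟩
  refine ⟨rename e P, rename_mem e he a B P hP, ?_⟩
  show aeval X (rename e P) = aeval x P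
  rw [aeval_rename, hX]

end K4Aux

open K4Aux

/-- **K4.** The initial growth property. -/
theorem pK4 (hQT : S_QT) (hQA : S_QA) (_hBxF : S_BxF) : S_K4 := by
  intro ι Ω _ _ _ x t hT
  obtain ⟨b, -, hb⟩ := hT
  obtain ⟨c₀, hc₀⟩ := gen hQT Ω t (x ∘ b)
  let E : ι ≃ Fin (Fintype.card ι) := Fintype.equivFin ι
  obtain ⟨N, X, c, e, hX, -, he, hXe⟩ := alg hQA Ω t (x ∘ b) c₀ hc₀ (Fintype.card ι)
    (x ∘ E.symm) (fun i => hb (E.symm i))
  refine ⟨c + 1, by omega, fun a B ha hB => ?_⟩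
  have hXE : X ∘ (e ∘ E) = x := by
    funext i
    have h := congrFun hXe (E i)
    show X (e (E i)) = x i
    have h' : X (e (E i)) = x (E.symm (E i)) := h
    rw [h', E.symm_apply_apply]
  refine le_trans (Kc_le x X (e ∘ E) (he.comp E.injective) hXE hX a B ha hB) ?_
  exact Nat.pow_le_pow_right (by norm_num) (Nat.mul_le_mul_right _ (by omega))

end Pool.Agent.SMQ
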