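import Pool.Agent.Lib.MP_452a87_nt.SpecK

/-!
# MP_452a87_nt, K/KcM (helper68)
-/

set_option autoImplicit false

namespace Pool.Agent.SMQ

open MvPolynomial

theorem pKcM (h0 : S_BxF) : S_KcM := by
  classical
  refine ⟨?_, ?_, ?_⟩
  · intro ι Ω _ _ x a a' B B' ha hB
    refine Set.ncard_le_ncard (Set.image_mono ?_) ((h0 ι a' B').image _)
    rintro P ⟨h1, h2⟩
    exact ⟨h1.trans ha, fun m => ⟨(h2 m).1, (h2 m).2.trans_le
      (pow_le_pow_right₀ (by norm_num) hB)⟩⟩
  · intro ι Ω Ω' _ _ _ x x' a B h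
    let g : Ω → Ω' := fun v => if hv : ∃ P ∈ Bx ι a B, aeval x P = v then
      aeval x' hv.choose else 0
    have hsub : (fun P : MvPolynomial ι ℤ => aeval x' P) '' Bx ι a B ⊆
        g '' ((fun P : MvPolynomial ι ℤ => aeval x P) '' Bx ι a B) := by
      rintro _ ⟨P, hP, rfl⟩
      refine ⟨aeval x P, ⟨P, hP, rfl⟩, ?_⟩
      have hv : ∃ Q ∈ Bx ι a B, aeval x Q = aeval x P := ⟨P, hP, rfl⟩
      change (if hv : ∃ Q ∈ Bx ι a B, aeval x Q = aeval x P then aeval x' hv.choose else 0) = _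
      rw [dif_pos hv]
      have h1 := hv.choose_spec.2
      have h2 := h (hv.choose - P) (by rw [map_sub, h1, sub_self])
      rw [map_sub, sub_eq_zero] at h2
      exact h2
    have hfin := (h0 ι a B).image fun P : MvPolynomial ι ℤ => aeval x P
    exact (Set.ncard_le_ncard hsub (hfin.image g)).trans (Set.ncard_image_le hfin)
  · intro ι Ω _ _ x a B
    have hfin := (h0 ι a B).image fun P : MvPolynomial ι ℤ => aeval x P
    have hne : ((fun P : MvPolynomial ι ℤ => aeval x P) '' Bx ι a B).Nonempty := by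
      refine ⟨_, 0, ⟨?_, fun m => ?_⟩, rfl⟩
      · rw [totalDegree_zero]
        exact Nat.zero_le _
      · rw [coeff_zero]
        exact ⟨le_refl _, by positivity⟩
    exact (Set.ncard_pos hfin).2 hne

end Pool.Agent.SMQ
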