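import Pool.Agent.Lib.MP_452a87_nt.SpecK

/-!
# MP_452a87_nt, K/L1a (helper68)
-/

set_option autoImplicit false

namespace Pool.Agent.SMQ

open MvPolynomial

namespace L1a68

theorem l1_of_subset {ι : Type} (f : MvPolynomial ι ℤ) (T : Finset (ι →₀ ℕ))
    (h : f.support ⊆ T) : l1 f = ∑ m ∈ T, (f.coeff m).natAbs := by
  unfold l1
  refine Finset.sum_subset h fun m _ hm => ?_
  rw [notMem_support_iff.1 hm]
  rfl

theorem l1_zero (ι : Type) : l1 (0 : MvPolynomial ι ℤ) = 0 := by
  unfold l1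
  rw [support_zero, Finset.sum_empty]

theorem l1_add {ι : Type} (f g : MvPolynomial ι ℤ) : l1 (f + g) ≤ l1 f + l1 g := by
  classical
  rw [l1_of_subset (f + g) (f.support ∪ g.support) support_add,
    l1_of_subset f (f.support ∪ g.support) Finset.subset_union_left,
    l1_of_subset g (f.support ∪ g.support) Finset.subset_union_right, ← Finset.sum_add_distrib]
  refine Finset.sum_le_sum fun m _ => ?_
  rw [coeff_add]
  exact Int.natAbs_add_le _ _

theorem l1_sum {ι κ : Type} (s : Finset κ) (f : κ → MvPolynomial ι ℤ) :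
    l1 (∑ k ∈ s, f k) ≤ ∑ k ∈ s, l1 (f k) := by
  classical
  induction s using Finset.induction_on with
  | empty => rw [Finset.sum_empty, Finset.sum_empty, l1_zero]
  | insert k s hk ih =>
    rw [Finset.sum_insert hk, Finset.sum_insert hk]
    exact (l1_add _ _).trans (Nat.add_le_add_left ih _)

theorem l1_monomial {ι : Type} (a : ι →₀ ℕ) (c : ℤ) :
    l1 (monomial a c : MvPolynomial ι ℤ) = c.natAbs := by
  classical
  rw [l1_of_subset _ _ support_monomial_subset, Finset.sum_singleton, coeff_monomial, if_pos rfl]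

theorem l1_monomial_mul {ι : Type} (a : ι →₀ ℕ) (c : ℤ) (g : MvPolynomial ι ℤ) :
    l1 (monomial a c * g) ≤ c.natAbs * l1 g := by
  have h1 : monomial a c * g = ∑ b ∈ g.support, monomial (a + b) (c * g.coeff b) := by
    conv_lhs => rw [g.as_sum, Finset.mul_sum]
    exact Finset.sum_congr rfl fun b _ => by rw [monomial_mul]
  rw [h1]
  refine (l1_sum _ _).trans (le_of_eq ?_)
  conv_rhs => rw [l1, Finset.mul_sum]
  exact Finset.sum_congr rfl fun b _ => by rw [l1_monomial, Int.natAbs_mul]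

theorem l1_mul {ι : Type} (f g : MvPolynomial ι ℤ) : l1 (f * g) ≤ l1 f * l1 g := by
  have h1 : f * g = ∑ a ∈ f.support, monomial a (f.coeff a) * g := by
    conv_lhs => rw [f.as_sum, Finset.sum_mul]
  rw [h1]
  refine (l1_sum _ _).trans ?_
  conv_rhs => rw [l1, Finset.sum_mul]
  exact Finset.sum_le_sum fun a _ => l1_monomial_mul _ _ _

theorem l1_C {ι : Type} (c : ℤ) : l1 (C c : MvPolynomial ι ℤ) = c.natAbs := l1_monomial 0 c

theorem l1_one (ι : Type) : l1 (1 : MvPolynomial ι ℤ) = 1 := l1_C 1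

theorem l1_pow {ι : Type} (f : MvPolynomial ι ℤ) (n : ℕ) : l1 (f ^ n) ≤ l1 f ^ n := by
  induction n with
  | zero => rw [pow_zero, pow_zero, l1_one]
  | succ n ih =>
    rw [pow_succ, pow_succ]
    exact (l1_mul _ _).trans (Nat.mul_le_mul_right _ ih)

theorem l1_X {ι : Type} (i : ι) : l1 (X i : MvPolynomial ι ℤ) = 1 := l1_monomial _ 1

theorem coeff_le_l1 {ι : Type} (f : MvPolynomial ι ℤ) (m : ι →₀ ℕ) :
    |f.coeff m| ≤ (l1 f : ℤ) := by
  rw [Int.abs_eq_natAbs]
  by_cases hm : m ∈ f.support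
  · exact_mod_cast Finset.single_le_sum (f := fun m => (f.coeff m).natAbs)
      (fun _ _ => Nat.zero_le _) hm
  · rw [notMem_support_iff.1 hm]
    simp

theorem l1_prod {ι κ : Type} (s : Finset κ) (f : κ → MvPolynomial ι ℤ) :
    l1 (∏ k ∈ s, f k) ≤ ∏ k ∈ s, l1 (f k) := by
  classical
  induction s using Finset.induction_on with
  | empty => rw [Finset.prod_empty, Finset.prod_empty, l1_one]
  | insert k s hk ih =>
    rw [Finset.prod_insert hk, Finset.prod_insert hk]
    exact (l1_mul _ _).trans (Nat.mul_le_mul_left _ ih)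

theorem l1_neg {ι : Type} (f : MvPolynomial ι ℤ) : l1 (-f) = l1 f := by
  unfold l1
  rw [support_neg]
  exact Finset.sum_congr rfl fun m _ => by rw [coeff_neg, Int.natAbs_neg]

theorem l1_eq_zero {ι : Type} (f : MvPolynomial ι ℤ) : l1 f = 0 ↔ f = 0 := by
  constructor
  · intro h
    ext m
    have h1 := coeff_le_l1 f m
    rw [h] at h1
    rw [coeff_zero]
    exact abs_nonpos_iff.1 (by exact_mod_cast h1)
  · rintro rfl
    exact l1_zero ι

/-- the coefficients of a product -/
theorem coeff_mul_le {ι : Type} (f g : MvPolynomial ι ℤ) (K : ℤ) (hg : ∀ m, |g.coeff m| ≤ K)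
    (m : ι →₀ ℕ) : |(f * g).coeff m| ≤ (l1 f : ℤ) * K := by
  classical
  have hK : 0 ≤ K := (abs_nonneg _).trans (hg 0)
  have h1 : f * g = ∑ a ∈ f.support, monomial a (f.coeff a) * g := by
    conv_lhs => rw [f.as_sum, Finset.sum_mul]
  rw [h1, coeff_sum, l1, Nat.cast_sum, Finset.sum_mul]
  refine (Finset.abs_sum_le_sum_abs _ _).trans (Finset.sum_le_sum fun a _ => ?_)
  rw [coeff_monomial_mul', ← Int.abs_eq_natAbs]
  split_ifs with h
  · rw [abs_mul]
    exact mul_le_mul_of_nonneg_left (hg _) (abs_nonneg _)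
  · rw [abs_zero]
    exact mul_nonneg (abs_nonneg _) hK

end L1a68

open L1a68 in
theorem pL1a : S_L1a := fun _ =>
  ⟨l1_add, l1_mul, l1_pow, l1_C, l1_X, coeff_le_l1, fun _ s f => l1_sum s f,
    fun _ s f => l1_prod s f, l1_neg, l1_eq_zero⟩

end Pool.Agent.SMQ
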