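import Pool.Agent.Lib.MP_452a87_nt.K.L1a

/-!
# MP_452a87_nt, K/Lio: the Liouville inequality (helper68)
-/

set_option autoImplicit false

namespace Pool.Agent.SMQ

open MvPolynomial

theorem pLio (hPG : S_PG) (hL1s : S_L1s) (_ : S_L1a) : S_Lio := by
  classical
  intro ι _
  set n := Fintype.card ι with hn
  refine ⟨2 * n + 10, by omega, ?_⟩
  intro ξ y s d f hs hd hPP hSpc hSz hfy
  set M := 2 * s with hM
  set B := 2 * (n + 4) * (d * s) with hB
  set h := (n + 2) * (d * M) with hh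
  have hds : 1 ≤ d * s := Nat.mul_pos hd hs
  have hl1 : l1 f ≤ 2 ^ ((n + 1) * d) := hL1s ι f d hSz
  have hl1p : ∀ c, l1 (f ^ c) ≤ (2 ^ ((n + 1) * d)) ^ c := fun c =>
    (L1a68.l1_pow f c).trans (Nat.pow_le_pow_left hl1 c)
  -- pigeonhole
  obtain ⟨w, hw0, hwB, hw⟩ := hPG ι ℂ (Fin (M + 1)) Unit ξ (fun c _ => f ^ (c : ℕ)) (d * M) B h
    (fun c _ => by
      refine (totalDegree_pow _ _).trans ?_
      rw [mul_comm d M]
      exact Nat.mul_le_mul (Nat.lt_succ_iff.1 c.2) hSz.1)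
    (fun _ m => by
      have h1 : ∀ c : Fin (M + 1), |coeff m (f ^ (c : ℕ))| ≤ ((2 ^ ((n + 1) * d * M) : ℕ) : ℤ) := by
        intro c
        refine (L1a68.coeff_le_l1 _ m).trans ?_
        have h2 : l1 (f ^ (c : ℕ)) ≤ 2 ^ ((n + 1) * d * M) := by
          refine (hl1p c).trans ?_
          rw [← pow_mul]
          exact Nat.pow_le_pow_right (by norm_num) (Nat.mul_le_mul_left _ (Nat.lt_succ_iff.1 c.2))
        exact_mod_cast h2
      refine (Finset.sum_le_sum fun c _ => h1 c).trans ?_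
      rw [Finset.sum_const, Finset.card_univ, Fintype.card_fin, nsmul_eq_mul]
      have h3 : (M + 1) * 2 ^ ((n + 1) * d * M) ≤ 2 ^ h := by
        calc (M + 1) * 2 ^ ((n + 1) * d * M) ≤ 2 ^ M * 2 ^ ((n + 1) * d * M) :=
              Nat.mul_le_mul_right _ (Nat.lt_two_pow_self (n := M))
          _ = 2 ^ (M + (n + 1) * d * M) := by rw [← pow_add]
          _ ≤ 2 ^ h := by
              refine Nat.pow_le_pow_right (by norm_num) ?_
              have : M ≤ d * M := Nat.le_mul_of_pos_left _ hd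
              rw [hh]
              nlinarith
      exact_mod_cast h3)
    (by
      rw [Fintype.card_unit, pow_one, Fintype.card_fin]
      refine (hPP (d * M) (B + h + 1) (Nat.mul_pos hd (by omega)) (by omega)).trans_lt ?_
      refine Nat.pow_lt_pow_right (by norm_num) ?_
      rw [pow_zero, one_mul, zero_add, pow_one]
      have e1 : h + 1 + d * M ≤ B := by
        rw [hh, hB, hM]
        nlinarith
      have e2 : B * (M + 1) = s * B + s * B + B := by
        rw [hM]
        ring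
      have e3 : s * (B + h + 1 + d * M) = s * B + s * (h + 1 + d * M) := by ring
      have e4 : s * (h + 1 + d * M) ≤ s * B := Nat.mul_le_mul_left _ e1
      have e5 : 1 ≤ B := by omega
      omega)
  have hw1 := hw ()
  rcases le_or_gt 1 ‖aeval y f‖ with hy | hy
  · have : (1 : ℝ) ≤ 2 ^ ((2 * n + 10) * s * d) := one_le_pow₀ (by norm_num)
    nlinarith
  -- the smallest index
  have hex : ∃ i : ℕ, ∃ hi : i < M + 1, w ⟨i, hi⟩ ≠ 0 := by
    by_contra hcon
    push Not at hcon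
    exact hw0 (funext fun i => hcon i.1 i.2)
  set i0 := Nat.find hex with hi0
  obtain ⟨hi0M, hwi0⟩ := Nat.find_spec hex
  have hmin : ∀ c : Fin (M + 1), (c : ℕ) < i0 → w c = 0 := by
    intro c hc
    have := Nat.find_min hex hc
    push Not at this
    exact this c.2
  set F : MvPolynomial ι ℤ := ∑ c : Fin (M + 1), C (w c) * f ^ ((c : ℕ) - i0) with hF
  have hfξ : aeval ξ f ≠ 0 := fun h0 => hfy (hSpc f h0)
  have hFξ : aeval ξ F = 0 := by
    have h1 : aeval ξ f ^ i0 * aeval ξ F = 0 := by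
      rw [hF, map_sum, Finset.mul_sum, ← hw1]
      refine Finset.sum_congr rfl fun c _ => ?_
      rw [map_mul, map_pow, aeval_C, eq_intCast]
      rcases lt_or_ge (c : ℕ) i0 with hc | hc
      · rw [hmin c hc]
        simp
      · rw [map_pow]
        have h2 : aeval ξ f ^ (c : ℕ) = aeval ξ f ^ i0 * aeval ξ f ^ ((c : ℕ) - i0) := by
          rw [← pow_add]
          congr 1
          omega
        rw [h2]
        ring
    exact (mul_eq_zero.1 h1).resolve_left (pow_ne_zero _ hfξ)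
  have hFy := hSpc F hFξ
  rw [hF, map_sum] at hFy
  set c0 : Fin (M + 1) := ⟨i0, hi0M⟩ with hc0
  rw [← Finset.add_sum_erase _ _ (Finset.mem_univ c0)] at hFy
  have h1 : aeval y (C (w c0) * f ^ ((c0 : ℕ) - i0)) = ((w c0 : ℤ) : ℂ) := by
    have : (c0 : ℕ) - i0 = 0 := Nat.sub_self i0
    rw [this, pow_zero, mul_one, aeval_C]
    rfl
  rw [h1] at hFy
  have h2 : ‖((w c0 : ℤ) : ℂ)‖ ≤ ∑ c ∈ Finset.univ.erase c0,
      ‖aeval y (C (w c) * f ^ ((c : ℕ) - i0))‖ := by
    rw [eq_neg_of_add_eq_zero_left hFy, norm_neg]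
    exact norm_sum_le _ _
  have h3 : (1 : ℝ) ≤ ‖((w c0 : ℤ) : ℂ)‖ := by
    rw [Complex.norm_intCast, ← Int.cast_abs]
    exact_mod_cast Int.one_le_abs hwi0
  have h4 : ∀ c ∈ Finset.univ.erase c0, ‖aeval y (C (w c) * f ^ ((c : ℕ) - i0))‖ ≤
      2 ^ B * ‖aeval y f‖ := by
    intro c hc
    rw [map_mul, map_pow, aeval_C, norm_mul, norm_pow, eq_intCast, Complex.norm_intCast,
      ← Int.cast_abs]
    have hne : (c : ℕ) ≠ i0 := fun h => (Finset.ne_of_mem_erase hc) (Fin.ext h)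
    have h5 : ((|w c| : ℤ) : ℝ) ≤ 2 ^ B := by exact_mod_cast (hwB c).le
    rcases lt_or_gt_of_ne hne with hlt | hgt
    · rw [hmin c hlt, abs_zero, Int.cast_zero, zero_mul]
      positivity
    · have h6 : ‖aeval y f‖ ^ ((c : ℕ) - i0) ≤ ‖aeval y f‖ := by
        calc ‖aeval y f‖ ^ ((c : ℕ) - i0) ≤ ‖aeval y f‖ ^ 1 :=
              pow_le_pow_of_le_one (norm_nonneg _) hy.le (by omega)
          _ = _ := pow_one _
      exact mul_le_mul h5 h6 (by positivity) (by positivity)
  have h5 : (1 : ℝ) ≤ M * (2 ^ B * ‖aeval y f‖) := by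
    refine h3.trans (h2.trans ((Finset.sum_le_sum h4).trans (le_of_eq ?_)))
    rw [Finset.sum_const, Finset.card_erase_of_mem (Finset.mem_univ _), Finset.card_univ,
      Fintype.card_fin, Nat.add_sub_cancel, nsmul_eq_mul]
  have h6 : (M : ℝ) * 2 ^ B ≤ 2 ^ ((2 * n + 10) * s * d) := by
    have h7 : M * 2 ^ B ≤ 2 ^ ((2 * n + 10) * s * d) := by
      calc M * 2 ^ B ≤ 2 ^ M * 2 ^ B := Nat.mul_le_mul_right _ (Nat.lt_two_pow_self (n := M)).le
        _ = 2 ^ (M + B) := by rw [← pow_add]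
        _ ≤ _ := by
            refine Nat.pow_le_pow_right (by norm_num) ?_
            have : s ≤ d * s := Nat.le_mul_of_pos_left _ hd
            rw [hM, hB]
            nlinarith
    exact_mod_cast h7
  calc (1 : ℝ) ≤ M * (2 ^ B * ‖aeval y f‖) := h5
    _ = ‖aeval y f‖ * (M * 2 ^ B) := by ring
    _ ≤ _ := mul_le_mul_of_nonneg_left h6 (norm_nonneg _)

end Pool.Agent.SMQ
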