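import Pool.Agent.Lib.MP_452a87_nt.K.Bx68

/-!
# MP_452a87_nt, K/PG: pigeonhole (helper68)
-/

set_option autoImplicit false

namespace Pool.Agent.SMQ

open MvPolynomial

theorem pPG (hB : S_BxF) : S_PG := by
  classical
  intro ι Ω I G _ _ _ _ ξ g d B h hd hc hK
  obtain ⟨J, hJd, hJ1, hJ0⟩ := Bx68.exists_J ι d
  have hV : ((fun P : MvPolynomial ι ℤ => aeval ξ P) '' Bx ι d (B + h + 1)).Finite :=
    (hB ι d (B + h + 1)).image _
  set V := (fun P : MvPolynomial ι ℤ => aeval ξ P) '' Bx ι d (B + h + 1) with hVdef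
  haveI : Fintype V := hV.fintype
  let pol : (I → Fin (2 ^ B)) → G → MvPolynomial ι ℤ := fun w γ =>
    ∑ i, C ((w i : ℕ) : ℤ) * g i γ + C (2 ^ (B + h)) * J
  have hdeg : ∀ (w : I → Fin (2 ^ B)) γ, (∑ i, C ((w i : ℕ) : ℤ) * g i γ).totalDegree ≤ d := by
    intro w γ
    refine totalDegree_finsetSum_le fun i _ => ?_
    refine (totalDegree_mul _ _).trans ?_
    rw [totalDegree_C, zero_add]
    exact hd i γ
  have hmem : ∀ w γ, pol w γ ∈ Bx ι d (B + h + 1) := by
    intro w γ
    refine ⟨?_, fun m => ?_⟩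
    · refine (totalDegree_add _ _).trans (max_le (hdeg w γ) ?_)
      refine (totalDegree_mul _ _).trans ?_
      rw [totalDegree_C, zero_add]
      exact hJd
    · change 0 ≤ coeff m (∑ i, C ((w i : ℕ) : ℤ) * g i γ + C (2 ^ (B + h)) * J) ∧
        coeff m (∑ i, C ((w i : ℕ) : ℤ) * g i γ + C (2 ^ (B + h)) * J) < 2 ^ (B + h + 1)
      rw [coeff_add, coeff_C_mul]
      have h8 : (0 : ℤ) < 2 ^ (B + h) := by positivity
      have h9 : (2 : ℤ) ^ (B + h + 1) = 2 * 2 ^ (B + h) := by ring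
      by_cases hm : ∑ i, m i ≤ d
      · rw [hJ1 m hm]
        have h1 : |coeff m (∑ i, C ((w i : ℕ) : ℤ) * g i γ)| ≤ (2 ^ B - 1) * 2 ^ h := by
          rw [coeff_sum]
          refine (Finset.abs_sum_le_sum_abs _ _).trans ?_
          have h2 : ∀ i, |coeff m (C ((w i : ℕ) : ℤ) * g i γ)| ≤
              (2 ^ B - 1) * |coeff m (g i γ)| := by
            intro i
            rw [coeff_C_mul, abs_mul]
            refine mul_le_mul_of_nonneg_right ?_ (abs_nonneg _)
            rw [abs_of_nonneg (by positivity)]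
            have := (w i).2
            have h3 : ((w i : ℕ) : ℤ) < 2 ^ B := by exact_mod_cast this
            omega
          refine (Finset.sum_le_sum fun i _ => h2 i).trans ?_
          rw [← Finset.mul_sum]
          refine mul_le_mul_of_nonneg_left (hc γ m) ?_
          have : (1 : ℤ) ≤ 2 ^ B := one_le_pow₀ (by norm_num)
          linarith
        have h4 : ((2 : ℤ) ^ B - 1) * 2 ^ h = 2 ^ (B + h) - 2 ^ h := by ring
        have h5 : (0 : ℤ) < 2 ^ h := by positivity
        rw [h4, abs_le] at h1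
        constructor <;> linarith [h1.1, h1.2]
      · rw [hJ0 m hm, Bx68.coeff_zero_of (hdeg w γ) hm]
        constructor <;> linarith
  let F : (I → Fin (2 ^ B)) → (G → V) := fun w γ => ⟨aeval ξ (pol w γ), pol w γ, hmem w γ, rfl⟩
  have hcard : Fintype.card (G → V) < Fintype.card (I → Fin (2 ^ B)) := by
    rw [Fintype.card_fun, Fintype.card_fun, Fintype.card_fin, ← pow_mul]
    have h1 : Fintype.card V = Kc ξ d (B + h + 1) := by
      unfold Kc
      rw [← hVdef, Set.ncard_eq_toFinset_card', Set.toFinset_card]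
    rw [h1]
    exact hK
  obtain ⟨w, w', hne, heq⟩ := Fintype.exists_ne_map_eq_of_card_lt F hcard
  refine ⟨fun i => ((w i : ℕ) : ℤ) - ((w' i : ℕ) : ℤ), ?_, ?_, ?_⟩
  · intro h0
    apply hne
    funext i
    have := congrFun h0 i
    simp only [Pi.zero_apply] at this
    apply Fin.ext
    omega
  · intro i
    have h1 := (w i).2
    have h2 := (w' i).2
    have h3 : ((w i : ℕ) : ℤ) < 2 ^ B := by exact_mod_cast h1
    have h4 : ((w' i : ℕ) : ℤ) < 2 ^ B := by exact_mod_cast h2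
    change |((w i : ℕ) : ℤ) - ((w' i : ℕ) : ℤ)| < 2 ^ B
    have h5 : (0 : ℤ) ≤ ((w i : ℕ) : ℤ) := Int.natCast_nonneg _
    have h6 : (0 : ℤ) ≤ ((w' i : ℕ) : ℤ) := Int.natCast_nonneg _
    rw [abs_lt]
    constructor <;> linarith
  · intro γ
    have h1 : aeval ξ (pol w γ) = aeval ξ (pol w' γ) := congrArg Subtype.val (congrFun heq γ)
    simp only [pol, map_add, map_sum, map_mul, aeval_C] at h1
    have h2 := add_right_cancel h1
    have h3 : ∀ i, ((((w i : ℕ) : ℤ) - ((w' i : ℕ) : ℤ) : ℤ) : Ω) * aeval ξ (g i γ) =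
        (algebraMap ℤ Ω) ((w i : ℕ) : ℤ) * aeval ξ (g i γ) -
          (algebraMap ℤ Ω) ((w' i : ℕ) : ℤ) * aeval ξ (g i γ) := by
      intro i
      rw [Int.cast_sub, sub_mul]
      rfl
    rw [Finset.sum_congr rfl fun i _ => h3 i, Finset.sum_sub_distrib, h2, sub_self]

end Pool.Agent.SMQ
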