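import Pool.Agent.Lib.MP_452a87_nt.SpecK

set_option autoImplicit false

namespace Pool.Agent.SMQ

open MvPolynomial

namespace QAAux

/-- Elements of `ℚ(x)` are quotients of values of integer polynomials. -/
theorem quot {n : ℕ} {Ω : Type} [Field Ω] [CharZero Ω] (x : Fin n → Ω) (y : Ω)
    (hy : y ∈ IntermediateField.adjoin ℚ (Set.range x)) :
    ∃ a b : MvPolynomial (Fin n) ℤ, aeval x b ≠ 0 ∧ y * aeval x b = aeval x a := by
  induction hy using IntermediateField.adjoin_induction with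
  | mem y hy =>
    obtain ⟨i, rfl⟩ := hy
    exact ⟨X i, 1, by simp, by simp⟩
  | algebraMap q =>
    refine ⟨C q.num, C (q.den : ℤ), ?_, ?_⟩
    · simp
    · have h1 : (algebraMap ℚ Ω q) = (q : Ω) := rfl
      have h2 : (q : Ω) * (q.den : Ω) = (q.num : Ω) := by
        have := Rat.mul_den_eq_num q
        exact_mod_cast congrArg (fun t : ℚ => (t : Ω)) this
      rw [h1]
      simpa using h2
  | add y w _ _ hy hw =>
    obtain ⟨a, b, hb, hab⟩ := hy
    obtain ⟨a', b', hb', hab'⟩ := hw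
    refine ⟨a * b' + a' * b, b * b', ?_, ?_⟩
    · rw [map_mul]
      exact mul_ne_zero hb hb'
    · rw [map_mul, map_add, map_mul, map_mul, ← hab, ← hab']
      ring
  | inv y _ hy =>
    obtain ⟨a, b, hb, hab⟩ := hy
    by_cases h0 : y = 0
    · refine ⟨0, 1, by simp, ?_⟩
      rw [h0]
      simp
    · refine ⟨b, a, ?_, ?_⟩
      · rw [← hab]
        exact mul_ne_zero h0 hb
      · rw [← hab, ← mul_assoc, inv_mul_cancel₀ h0, one_mul]
  | mul y w _ _ hy hw =>
    obtain ⟨a, b, hb, hab⟩ := hy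
    obtain ⟨a', b', hb', hab'⟩ := hw
    refine ⟨a * a', b * b', ?_, ?_⟩
    · rw [map_mul]
      exact mul_ne_zero hb hb'
    · rw [map_mul, map_mul, ← hab, ← hab']
      ring

/-- An algebraic relation with integer polynomials. -/
theorem rel {n : ℕ} {Ω : Type} [Field Ω] [CharZero Ω] (x : Fin n → Ω) (z : Ω)
    (hz : IsAlgebraic (IntermediateField.adjoin ℚ (Set.range x)) z) :
    ∃ (δ : ℕ) (q : ℕ → MvPolynomial (Fin n) ℤ), 1 ≤ δ ∧ aeval x (q δ) ≠ 0 ∧
      ∑ j ∈ Finset.range (δ + 1), aeval x (q j) * z ^ j = 0 := by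
  classical
  obtain ⟨p, hp0, hpz⟩ := hz
  have h : ∀ j : ℕ, ∃ a b : MvPolynomial (Fin n) ℤ, aeval x b ≠ 0 ∧
      ((p.coeff j : IntermediateField.adjoin ℚ (Set.range x)) : Ω) * aeval x b = aeval x a :=
    fun j => quot x _ (p.coeff j).2
  choose a b hb hab using h
  set δ := p.natDegree with hδ
  have hq : ∀ j ∈ Finset.range (δ + 1), aeval x (a j * ∏ l ∈ (Finset.range (δ + 1)).erase j, b l) =
      ((p.coeff j : IntermediateField.adjoin ℚ (Set.range x)) : Ω) * ∏ l ∈ Finset.range (δ + 1), aeval x (b l) := by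
    intro j hj
    rw [map_mul, ← hab j, map_prod, mul_assoc, Finset.mul_prod_erase _ (fun l => aeval x (b l)) hj]
  have hprod : ∏ l ∈ Finset.range (δ + 1), aeval x (b l) ≠ 0 :=
    Finset.prod_ne_zero_iff.2 fun l _ => hb l
  have hlead : ((p.coeff δ : IntermediateField.adjoin ℚ (Set.range x)) : Ω) ≠ 0 := by
    intro h
    apply hp0
    rw [← Polynomial.leadingCoeff_eq_zero, Polynomial.leadingCoeff, ← hδ]
    exact Subtype.ext h
  have hsum : ∑ j ∈ Finset.range (δ + 1),
      ((p.coeff j : IntermediateField.adjoin ℚ (Set.range x)) : Ω) * z ^ j = 0 := by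
    rw [Polynomial.aeval_eq_sum_range] at hpz
    rw [← hpz]
    refine Finset.sum_congr rfl fun j _ => ?_
    rw [Algebra.smul_def]
    rfl
  refine ⟨δ, fun j => a j * ∏ l ∈ (Finset.range (δ + 1)).erase j, b l, ?_, ?_, ?_⟩
  · by_contra h0
    have h1 : δ = 0 := by omega
    rw [h1] at hsum hlead
    simp only [zero_add, Finset.range_one, Finset.sum_singleton, pow_zero, mul_one] at hsum
    exact hlead hsum
  · show aeval x (a δ * ∏ l ∈ (Finset.range (δ + 1)).erase δ, b l) ≠ 0
    rw [hq δ (Finset.self_mem_range_succ δ)]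
    exact mul_ne_zero hlead hprod
  · have h2 : ∑ j ∈ Finset.range (δ + 1), aeval x (a j * ∏ l ∈ (Finset.range (δ + 1)).erase j, b l) * z ^ j =
        (∏ l ∈ Finset.range (δ + 1), aeval x (b l)) * ∑ j ∈ Finset.range (δ + 1),
          ((p.coeff j : IntermediateField.adjoin ℚ (Set.range x)) : Ω) * z ^ j := by
      rw [Finset.mul_sum]
      refine Finset.sum_congr rfl fun j hj => ?_
      rw [hq j hj]
      ring
    rw [h2, hsum, mul_zero]

/-- Evaluation through `finSuccEquiv`. -/
theorem evalCons {n : ℕ} {Ω : Type} [Field Ω] (x : Fin n → Ω) (z : Ω) (P : MvPolynomial (Fin (n + 1)) ℤ) :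
    Polynomial.eval₂ (aeval (R := ℤ) x).toRingHom z (finSuccEquiv ℤ n P) =
      aeval (Fin.cons z x : Fin (n + 1) → Ω) P := by
  induction P using MvPolynomial.induction_on with
  | C a =>
    have h : finSuccEquiv ℤ n (C a) = Polynomial.C (C a) := by simp
    rw [h, Polynomial.eval₂_C]
    simp
  | add p q hp hq => simp only [map_add, Polynomial.eval₂_add, hp, hq]
  | mul_X p i hp =>
    rw [map_mul, Polynomial.eval₂_mul, hp, map_mul]
    congr 1
    refine Fin.cases ?_ (fun i => ?_) i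
    · rw [finSuccEquiv_X_zero, Polynomial.eval₂_X]
      simp
    · rw [finSuccEquiv_X_succ, Polynomial.eval₂_C]
      simp

theorem evalCons' {n : ℕ} {Ω : Type} [Field Ω] (x : Fin n → Ω) (z : Ω) (P : MvPolynomial (Fin (n + 1)) ℤ) (a : ℕ)
    (hP : P.totalDegree ≤ a) :
    aeval (Fin.cons z x : Fin (n + 1) → Ω) P =
      ∑ i ∈ Finset.range (a + 1), aeval x ((finSuccEquiv ℤ n P).coeff i) * z ^ i := by
  rw [← evalCons, Polynomial.eval₂_eq_sum_range' _ (n := a + 1)]
  · rfl
  · rw [natDegree_finSuccEquiv]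
    have := degreeOf_le_totalDegree P 0
    omega

/-- Coefficients of a product. -/
theorem coeffMul {ι : Type} (f g : MvPolynomial ι ℤ) (M : ℤ) (hf : ∀ m, |f.coeff m| ≤ M) (m : ι →₀ ℕ) :
    |(f * g).coeff m| ≤ M * l1 g := by
  classical
  have hM : 0 ≤ M := le_trans (abs_nonneg _) (hf 0)
  have h1 : (f * g).coeff m = ∑ m' ∈ g.support, (f * monomial m' (g.coeff m')).coeff m := by
    conv_lhs => rw [as_sum g, Finset.mul_sum, coeff_sum]
  rw [h1]
  calc |∑ m' ∈ g.support, (f * monomial m' (g.coeff m')).coeff m|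
      ≤ ∑ m' ∈ g.support, |(f * monomial m' (g.coeff m')).coeff m| := Finset.abs_sum_le_sum_abs _ _
    _ ≤ ∑ m' ∈ g.support, M * ((g.coeff m').natAbs : ℤ) := by
        refine Finset.sum_le_sum fun m' _ => ?_
        rw [coeff_mul_monomial']
        split_ifs
        · rw [abs_mul, Int.natCast_natAbs]
          exact mul_le_mul_of_nonneg_right (hf _) (abs_nonneg _)
        · rw [abs_zero]
          positivity
    _ = M * l1 g := by
        unfold l1
        rw [← Finset.mul_sum]
        push_cast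
        rfl

theorem arith (r c a B D h δ : ℕ) :
    (c * (((D + 1) * a) ^ r * (B + (h + 1) * a) + ((D + 1) * a) ^ (r + 1))) * δ ≤
      δ * c * (D + 1) ^ (r + 1) * (h + 2) * (a ^ r * B + a ^ (r + 1)) := by
  have h1 : ((D + 1) * a) ^ r * (B + (h + 1) * a) + ((D + 1) * a) ^ (r + 1) ≤
      (D + 1) ^ (r + 1) * ((h + 2) * (a ^ r * B + a ^ (r + 1))) := by
    have h2 : ((D + 1) * a) ^ r * (B + (h + 1) * a) ≤
        (D + 1) ^ (r + 1) * (a ^ r * B + (h + 1) * a ^ (r + 1)) := by
      calc ((D + 1) * a) ^ r * (B + (h + 1) * a) = (D + 1) ^ r * (a ^ r * B + (h + 1) * a ^ (r + 1)) := by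
            rw [mul_pow]
            ring
        _ ≤ (D + 1) ^ (r + 1) * (a ^ r * B + (h + 1) * a ^ (r + 1)) :=
            Nat.mul_le_mul_right _ (Nat.pow_le_pow_right (Nat.succ_pos D) (Nat.le_succ r))
    calc ((D + 1) * a) ^ r * (B + (h + 1) * a) + ((D + 1) * a) ^ (r + 1)
        ≤ (D + 1) ^ (r + 1) * (a ^ r * B + (h + 1) * a ^ (r + 1)) + (D + 1) ^ (r + 1) * a ^ (r + 1) := by
          rw [mul_pow (D + 1) a (r + 1)]
          exact Nat.add_le_add_right h2 _
      _ = (D + 1) ^ (r + 1) * (a ^ r * B + (h + 2) * a ^ (r + 1)) := by ring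
      _ ≤ (D + 1) ^ (r + 1) * ((h + 2) * (a ^ r * B + a ^ (r + 1))) := by
          refine Nat.mul_le_mul_left _ ?_
          have h3 : a ^ r * B ≤ (h + 2) * (a ^ r * B) := Nat.le_mul_of_pos_left _ (by omega)
          calc a ^ r * B + (h + 2) * a ^ (r + 1) ≤ (h + 2) * (a ^ r * B) + (h + 2) * a ^ (r + 1) :=
                Nat.add_le_add_right h3 _
            _ = _ := by ring
  calc (c * (((D + 1) * a) ^ r * (B + (h + 1) * a) + ((D + 1) * a) ^ (r + 1))) * δ
      ≤ (c * ((D + 1) ^ (r + 1) * ((h + 2) * (a ^ r * B + a ^ (r + 1))))) * δ :=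
        Nat.mul_le_mul_right _ (Nat.mul_le_mul_left _ h1)
    _ = _ := by ring

end QAAux

theorem pQA (hQA1 : S_QA1) (hL1a : S_L1a) : S_QA := by
  classical
  intro n Ω _ _ x z r c hQ hz
  obtain ⟨δ, q, hδ, hqδ, hsum⟩ := QAAux.rel x z hz
  obtain ⟨D1, H, hH1, hqd, hql, hR⟩ := hQA1 (Fin n) Ω x z δ q hδ hsum
  choose R hRd hRl hRe using hR
  obtain ⟨_, hmul, hpow, _, _, _, _, _, _, _⟩ := hL1a (Fin n)
  -- `H ≤ 2 ^ h`
  obtain ⟨h, hh⟩ : ∃ h : ℕ, H ≤ 2 ^ h := ⟨H, Nat.lt_two_pow_self.le⟩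
  refine ⟨δ * c * (D1 + 1) ^ (r + 1) * (h + 2), ?_⟩
  intro a B ha hB
  obtain ⟨hfin, hcard⟩ := hQ ((D1 + 1) * a) (B + (h + 1) * a) (Nat.mul_pos (Nat.succ_pos _) ha) (by omega)
  set V : Set Ω := (fun P : MvPolynomial (Fin n) ℤ => aeval x P) '' Bs (Fin n) ((D1 + 1) * a) (B + (h + 1) * a) with hV
  -- the polynomials `S_j`
  let S : MvPolynomial (Fin (n + 1)) ℤ → ℕ → MvPolynomial (Fin n) ℤ := fun P j =>
    ∑ i ∈ Finset.range (a + 1), (finSuccEquiv ℤ n P).coeff i * (q δ ^ (a - i) * R i j)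
  have hSB : ∀ P ∈ Bs (Fin (n + 1)) a B, ∀ j, S P j ∈ Bs (Fin n) ((D1 + 1) * a) (B + (h + 1) * a) := by
    intro P hP j
    refine ⟨?_, ?_⟩
    · refine (totalDegree_finsetSum _ _).trans ?_
      refine Finset.sup_le fun i hi => ?_
      rw [Finset.mem_range] at hi
      by_cases h0 : (finSuccEquiv ℤ n P).coeff i = 0
      · rw [h0, zero_mul, totalDegree_zero]
        exact Nat.zero_le _
      have h1 := totalDegree_coeff_finSuccEquiv_add_le P i h0
      have h2 := hP.1
      calc ((finSuccEquiv ℤ n P).coeff i * (q δ ^ (a - i) * R i j)).totalDegree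
          ≤ ((finSuccEquiv ℤ n P).coeff i).totalDegree + (q δ ^ (a - i) * R i j).totalDegree := totalDegree_mul _ _
        _ ≤ ((finSuccEquiv ℤ n P).coeff i).totalDegree + ((q δ ^ (a - i)).totalDegree + (R i j).totalDegree) :=
            Nat.add_le_add_left (totalDegree_mul _ _) _
        _ ≤ a + ((a - i) * D1 + D1 * i) := by
            refine Nat.add_le_add (by omega) (Nat.add_le_add ?_ (hRd i j))
            exact (totalDegree_pow _ _).trans (Nat.mul_le_mul_left _ hqd)
        _ = (D1 + 1) * a := by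
            have h3 : (a - i) * D1 + D1 * i = D1 * a := by
              rw [mul_comm, ← mul_add]
              congr 1
              omega
            rw [h3]
            ring
    · intro m
      rw [coeff_sum]
      calc |∑ i ∈ Finset.range (a + 1), ((finSuccEquiv ℤ n P).coeff i * (q δ ^ (a - i) * R i j)).coeff m|
          ≤ ∑ i ∈ Finset.range (a + 1), |((finSuccEquiv ℤ n P).coeff i * (q δ ^ (a - i) * R i j)).coeff m| :=
            Finset.abs_sum_le_sum_abs _ _
        _ ≤ ∑ i ∈ Finset.range (a + 1), (2 : ℤ) ^ B * (2 ^ h) ^ a := by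
            refine Finset.sum_le_sum fun i hi => ?_
            rw [Finset.mem_range] at hi
            refine (QAAux.coeffMul _ _ ((2 : ℤ) ^ B) ?_ m).trans ?_
            · intro m'
              rw [finSuccEquiv_coeff_coeff]
              exact hP.2 _
            · refine mul_le_mul_of_nonneg_left ?_ (by positivity)
              have h1 : l1 (q δ ^ (a - i) * R i j) ≤ H ^ a := by
                calc l1 (q δ ^ (a - i) * R i j) ≤ l1 (q δ ^ (a - i)) * l1 (R i j) := hmul _ _
                  _ ≤ H ^ (a - i) * H ^ i :=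
                      Nat.mul_le_mul ((hpow _ _).trans (Nat.pow_le_pow_left hql _)) (hRl i j)
                  _ = H ^ a := by
                      rw [← pow_add]
                      congr 1
                      omega
              have h2 : l1 (q δ ^ (a - i) * R i j) ≤ (2 ^ h) ^ a := h1.trans (Nat.pow_le_pow_left hh _)
              exact_mod_cast h2
        _ = ((a + 1 : ℕ) : ℤ) * ((2 : ℤ) ^ B * (2 ^ h) ^ a) := by
            rw [Finset.sum_const, Finset.card_range, nsmul_eq_mul]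
        _ ≤ (2 : ℤ) ^ a * ((2 : ℤ) ^ B * (2 ^ h) ^ a) := by
            refine mul_le_mul_of_nonneg_right ?_ (by positivity)
            have : a + 1 ≤ 2 ^ a := Nat.lt_two_pow_self
            exact_mod_cast this
        _ = 2 ^ (B + (h + 1) * a) := by
            rw [← pow_mul, ← pow_add, ← pow_add]
            congr 1
            ring
  have hval : ∀ P ∈ Bs (Fin (n + 1)) a B, aeval (Fin.cons z x : Fin (n + 1) → Ω) P =
      (aeval x (q δ) ^ a)⁻¹ * ∑ j : Fin δ, aeval x (S P j) * z ^ (j : ℕ) := by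
    intro P hP
    rw [eq_inv_mul_iff_mul_eq₀ (pow_ne_zero _ hqδ), QAAux.evalCons' x z P a hP.1, Finset.mul_sum,
      Fin.sum_univ_eq_sum_range (fun j => aeval x (S P j) * z ^ j) δ]
    have h1 : ∀ j ∈ Finset.range δ, aeval x (S P j) * z ^ j = ∑ i ∈ Finset.range (a + 1),
        aeval x ((finSuccEquiv ℤ n P).coeff i) * aeval x (q δ) ^ (a - i) * (aeval x (R i j) * z ^ j) := by
      intro j _
      simp only [S]
      rw [map_sum, Finset.sum_mul]
      refine Finset.sum_congr rfl fun i _ => ?_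
      rw [map_mul, map_mul, map_pow]
      ring
    rw [Finset.sum_congr rfl h1, Finset.sum_comm]
    refine Finset.sum_congr rfl fun i hi => ?_
    rw [Finset.mem_range] at hi
    rw [← Finset.mul_sum, ← hRe i]
    have h2 : aeval x (q δ) ^ a = aeval x (q δ) ^ (a - i) * aeval x (q δ) ^ i := by
      rw [← pow_add]
      congr 1
      omega
    rw [h2]
    ring
  -- the finite set of vectors
  set Vf : Finset Ω := hfin.toFinset with hVf
  set W : Finset Ω := (Fintype.piFinset (fun _ : Fin δ => Vf)).image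
    (fun v => (aeval x (q δ) ^ a)⁻¹ * ∑ j : Fin δ, v j * z ^ (j : ℕ)) with hW
  have hsub : (fun P : MvPolynomial (Fin (n + 1)) ℤ => aeval (Fin.cons z x : Fin (n + 1) → Ω) P) ''
      Bs (Fin (n + 1)) a B ⊆ (W : Set Ω) := by
    rintro y ⟨P, hP, rfl⟩
    rw [Finset.mem_coe, hW, Finset.mem_image]
    refine ⟨fun j => aeval x (S P j), ?_, (hval P hP).symm⟩
    rw [Fintype.mem_piFinset]
    intro j
    rw [hVf, Set.Finite.mem_toFinset]
    exact ⟨S P j, hSB P hP j, rfl⟩
  refine ⟨W.finite_toSet.subset hsub, ?_⟩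
  calc Set.ncard ((fun P : MvPolynomial (Fin (n + 1)) ℤ => aeval (Fin.cons z x : Fin (n + 1) → Ω) P) ''
        Bs (Fin (n + 1)) a B) ≤ Set.ncard (W : Set Ω) := Set.ncard_le_ncard hsub W.finite_toSet
    _ = W.card := Set.ncard_coe_finset W
    _ ≤ (Fintype.piFinset (fun _ : Fin δ => Vf)).card := Finset.card_image_le
    _ = Vf.card ^ δ := by rw [Fintype.card_piFinset_const]
    _ ≤ (2 ^ (c * (((D1 + 1) * a) ^ r * (B + (h + 1) * a) + ((D1 + 1) * a) ^ (r + 1)))) ^ δ := by
        refine Nat.pow_le_pow_left ?_ _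
        rw [hVf, ← Set.ncard_eq_toFinset_card _ hfin]
        exact hcard
    _ ≤ 2 ^ (δ * c * (D1 + 1) ^ (r + 1) * (h + 2) * (a ^ r * B + a ^ (r + 1))) := by
        rw [← pow_mul]
        exact Nat.pow_le_pow_right (by norm_num) (QAAux.arith r c a B D1 h δ)

end Pool.Agent.SMQ
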