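import Pool.Agent.Lib.MP_452a87_nt.K.L1a

/-!
# MP_452a87_nt, K/QA1 (helper68)
-/

set_option autoImplicit false

namespace Pool.Agent.SMQ

open MvPolynomial

theorem pQA1 (_ : S_L1a) : S_QA1 := by
  classical
  intro ι Ω _ x z δ q hδ hz
  obtain ⟨e, rfl⟩ : ∃ e, δ = e + 1 := ⟨δ - 1, by omega⟩
  set M := (Finset.range (e + 2)).sup (fun j => l1 (q j)) with hM
  set D1 := (Finset.range (e + 2)).sup (fun j => (q j).totalDegree) with hD1
  have hMj : ∀ j, j < e + 2 → l1 (q j) ≤ M := fun j hj =>
    Finset.le_sup (f := fun j => l1 (q j)) (Finset.mem_range.2 hj)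
  have hDj : ∀ j, j < e + 2 → (q j).totalDegree ≤ D1 := fun j hj =>
    Finset.le_sup (f := fun j => (q j).totalDegree) (Finset.mem_range.2 hj)
  refine ⟨D1, 2 * M + 1, by omega, hDj _ (by omega), (hMj _ (by omega)).trans (by omega), ?_⟩
  intro i
  induction i with
  | zero =>
    refine ⟨fun j => if j = 0 then 1 else 0, fun j => ?_, fun j => ?_, ?_⟩
    · dsimp only
      split_ifs
      · rw [totalDegree_one]
        exact Nat.zero_le _
      · rw [totalDegree_zero]
        exact Nat.zero_le _
    · dsimp only
      split_ifs
      · rw [L1a68.l1_one, pow_zero]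
      · rw [L1a68.l1_zero]
        exact Nat.zero_le _
    · rw [Finset.sum_range_succ', Finset.sum_eq_zero fun j _ => by
        dsimp only
        rw [if_neg (Nat.succ_ne_zero j), map_zero, zero_mul]]
      simp
  | succ i ih =>
    obtain ⟨R, hR1, hR2, hR3⟩ := ih
    refine ⟨fun j => if j < e + 1 then (if 1 ≤ j then q (e + 1) * R (j - 1) else 0) - R e * q j
      else 0, fun j => ?_, fun j => ?_, ?_⟩
    · dsimp only
      split_ifs with h1 h2
      · refine (totalDegree_sub _ _).trans (max_le ?_ ?_)
        · refine (totalDegree_mul _ _).trans ?_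
          have := hDj (e + 1) (by omega)
          have := hR1 (j - 1)
          rw [mul_add, mul_one]
          omega
        · refine (totalDegree_mul _ _).trans ?_
          have := hDj j (by omega)
          have := hR1 e
          rw [mul_add, mul_one]
          omega
      · refine (totalDegree_sub _ _).trans (max_le ?_ ?_)
        · rw [totalDegree_zero]
          exact Nat.zero_le _
        · refine (totalDegree_mul _ _).trans ?_
          have := hDj j (by omega)
          have := hR1 e
          rw [mul_add, mul_one]
          omega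
      · rw [totalDegree_zero]
        exact Nat.zero_le _
    · dsimp only
      have hb : ∀ j, j < e + 1 → l1 (R e * q j) ≤ (2 * M + 1) ^ i * M := fun j hj =>
        (L1a68.l1_mul _ _).trans (Nat.mul_le_mul (hR2 e) (hMj j (by omega)))
      have hb' : ∀ j, l1 (q (e + 1) * R j) ≤ M * (2 * M + 1) ^ i := fun j =>
        (L1a68.l1_mul _ _).trans (Nat.mul_le_mul (hMj _ (by omega)) (hR2 j))
      have hpow : (2 * M + 1) ^ (i + 1) = M * (2 * M + 1) ^ i + (2 * M + 1) ^ i * M +
          (2 * M + 1) ^ i := by ring
      split_ifs with h1 h2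
      · rw [sub_eq_add_neg]
        refine (L1a68.l1_add _ _).trans ?_
        rw [L1a68.l1_neg]
        have h3 := hb j h1
        have h4 := hb' (j - 1)
        omega
      · rw [sub_eq_add_neg]
        refine (L1a68.l1_add _ _).trans ?_
        rw [L1a68.l1_neg, L1a68.l1_zero]
        have h3 := hb j h1
        omega
      · rw [L1a68.l1_zero]
        exact Nat.zero_le _
    · -- the identity
      have hz' : aeval x (q (e + 1)) * z ^ (e + 1) =
          -∑ j ∈ Finset.range (e + 1), aeval x (q j) * z ^ j := by
        rw [Finset.sum_range_succ] at hz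
        exact eq_neg_of_add_eq_zero_right hz
      have h1 : ∑ j ∈ Finset.range (e + 1), aeval x (if j < e + 1 then
          (if 1 ≤ j then q (e + 1) * R (j - 1) else 0) - R e * q j else 0) * z ^ j =
          (∑ j ∈ Finset.range (e + 1), aeval x (if 1 ≤ j then q (e + 1) * R (j - 1) else 0) * z ^ j)
            - aeval x (R e) * ∑ j ∈ Finset.range (e + 1), aeval x (q j) * z ^ j := by
        rw [Finset.mul_sum, ← Finset.sum_sub_distrib]
        refine Finset.sum_congr rfl fun j hj => ?_
        rw [if_pos (Finset.mem_range.1 hj), map_sub, map_mul]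
        ring
      have h2 : ∑ j ∈ Finset.range (e + 1), aeval x (if 1 ≤ j then q (e + 1) * R (j - 1) else 0) *
          z ^ j = aeval x (q (e + 1)) * z * ∑ j ∈ Finset.range e, aeval x (R j) * z ^ j := by
        rw [Finset.sum_range_succ', if_neg (by norm_num), map_zero, zero_mul, add_zero,
          Finset.mul_sum]
        refine Finset.sum_congr rfl fun j _ => ?_
        rw [if_pos (by omega), map_mul, Nat.add_sub_cancel]
        ring
      rw [h1, h2, pow_succ, pow_succ]
      have h3 : aeval x (q (e + 1)) ^ i * aeval x (q (e + 1)) * (z ^ i * z) =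
          (aeval x (q (e + 1)) ^ i * z ^ i) * (aeval x (q (e + 1)) * z) := by ring
      rw [h3, hR3, Finset.sum_range_succ]
      have h4 : aeval x (R e) * ∑ j ∈ Finset.range (e + 1), aeval x (q j) * z ^ j =
          -(aeval x (R e) * (aeval x (q (e + 1)) * z ^ (e + 1))) := by
        rw [hz']
        ring
      rw [h4]
      ring

end Pool.Agent.SMQ
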