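import Pool.Agent.Lib.MP_452a87_nt.SpecK

/-!
# MP_452a87_nt, K/QT (helper68)
-/

set_option autoImplicit false

namespace Pool.Agent.SMQ

open MvPolynomial

/-- evaluation through `finSuccEquiv` -/
private theorem eval_fin {n : ℕ} {Ω : Type} [Field Ω] (x : Fin n → Ω) (z : Ω)
    (P : MvPolynomial (Fin (n + 1)) ℤ) :
    Polynomial.eval₂ (aeval (R := ℤ) x).toRingHom z (finSuccEquiv ℤ n P) =
      aeval (Fin.cons z x : Fin (n + 1) → Ω) P := by
  induction P using MvPolynomial.induction_on with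
  | C a =>
    rw [finSuccEquiv_apply, eval₂Hom_C, RingHom.comp_apply, Polynomial.eval₂_C]
    simp
  | add p q hp hq => simp only [map_add, Polynomial.eval₂_add, hp, hq]
  | mul_X p i hp =>
    rw [map_mul, Polynomial.eval₂_mul, hp, map_mul]
    congr 1
    refine Fin.cases ?_ (fun i => ?_) i
    · rw [finSuccEquiv_X_zero, Polynomial.eval₂_X, aeval_X, Fin.cons_zero]
    · rw [finSuccEquiv_X_succ, Polynomial.eval₂_C, aeval_X, Fin.cons_succ]
      exact aeval_X _ _

theorem pQT : S_QT := by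
  classical
  refine ⟨?_, ?_⟩
  · intro Ω _ x a B ha hB
    have hsub : (fun P : MvPolynomial (Fin 0) ℤ => aeval x P) '' Bs (Fin 0) a B ⊆
        (fun v : ℤ => (v : Ω)) '' Set.Icc (-2 ^ B) (2 ^ B) := by
      rintro _ ⟨P, ⟨-, hP⟩, rfl⟩
      refine ⟨P.coeff 0, abs_le.1 (hP 0), ?_⟩
      change ((P.coeff 0 : ℤ) : Ω) = aeval x P
      conv_rhs => rw [eq_C_of_isEmpty P, aeval_C]
      rfl
    have hfin : (Set.Icc (-2 ^ B : ℤ) (2 ^ B)).Finite := Set.finite_Icc _ _
    refine ⟨(hfin.image _).subset hsub, ?_⟩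
    refine (Set.ncard_le_ncard hsub (hfin.image _)).trans ((Set.ncard_image_le hfin).trans ?_)
    rw [Set.ncard_eq_toFinset_card', Set.toFinset_Icc, Int.card_Icc]
    have h1 : (2 : ℤ) ^ B + 1 - -2 ^ B = ((2 ^ (B + 1) + 1 : ℕ) : ℤ) := by
      push_cast
      ring
    rw [h1, Int.toNat_natCast]
    have h2 : 2 ^ (B + 1) + 1 ≤ 2 ^ (B + 2) := by
      have : 1 ≤ 2 ^ (B + 1) := Nat.one_le_two_pow
      rw [show B + 2 = (B + 1) + 1 from rfl, pow_succ 2 (B + 1)]
      omega
    refine h2.trans (Nat.pow_le_pow_right (by norm_num) ?_)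
    rw [pow_zero, one_mul, zero_add, pow_one]
    omega
  · intro n Ω _ x z r c hQ a B ha hB
    obtain ⟨hf, hc⟩ := hQ a B ha hB
    set V := (fun P : MvPolynomial (Fin n) ℤ => aeval x P) '' Bs (Fin n) a B with hV
    haveI : Fintype V := hf.fintype
    let Φ : (Fin (a + 1) → V) → Ω := fun φ => ∑ i, (φ i : Ω) * z ^ (i : ℕ)
    have hsub : (fun P : MvPolynomial (Fin (n + 1)) ℤ =>
        aeval (Fin.cons z x : Fin (n + 1) → Ω) P) '' Bs (Fin (n + 1)) a B ⊆ Set.range Φ := by
      rintro _ ⟨P, ⟨hP1, hP2⟩, rfl⟩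
      have hmem : ∀ i : ℕ, (finSuccEquiv ℤ n P).coeff i ∈ Bs (Fin n) a B := by
        intro i
        refine ⟨?_, fun m => ?_⟩
        · by_cases h0 : (finSuccEquiv ℤ n P).coeff i = 0
          · rw [h0, totalDegree_zero]
            exact Nat.zero_le _
          · have := totalDegree_coeff_finSuccEquiv_add_le P i h0
            omega
        · rw [finSuccEquiv_coeff_coeff]
          exact hP2 _
      refine ⟨fun i => ⟨aeval x ((finSuccEquiv ℤ n P).coeff i), _, hmem i, rfl⟩, ?_⟩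
      change ∑ i : Fin (a + 1), aeval x ((finSuccEquiv ℤ n P).coeff i) * z ^ (i : ℕ) =
        aeval (Fin.cons z x : Fin (n + 1) → Ω) P
      rw [← eval_fin, Polynomial.eval₂_eq_sum_range' (n := a + 1) _ ?_ z,
        Fin.sum_univ_eq_sum_range (fun i => aeval x ((finSuccEquiv ℤ n P).coeff i) * z ^ i)]
      · rfl
      · rw [natDegree_finSuccEquiv]
        exact Nat.lt_succ_of_le ((degreeOf_le_totalDegree P 0).trans hP1)
    refine ⟨(Set.finite_range Φ).subset hsub, ?_⟩
    refine (Set.ncard_le_ncard hsub (Set.finite_range Φ)).trans ?_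
    have h1 : (Set.range Φ).ncard ≤ Fintype.card V ^ (a + 1) := by
      rw [← Set.image_univ]
      refine (Set.ncard_image_le Set.finite_univ).trans ?_
      rw [Set.ncard_univ, Nat.card_eq_fintype_card, Fintype.card_fun, Fintype.card_fin]
    have h2 : Fintype.card V = V.ncard := by
      rw [Set.ncard_eq_toFinset_card', Set.toFinset_card]
    rw [h2] at h1
    refine h1.trans ((Nat.pow_le_pow_left hc _).trans ?_)
    rw [← pow_mul]
    refine Nat.pow_le_pow_right (by norm_num) ?_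
    calc c * (a ^ r * B + a ^ (r + 1)) * (a + 1) ≤ c * (a ^ r * B + a ^ (r + 1)) * (2 * a) :=
          Nat.mul_le_mul_left _ (by omega)
      _ = 2 * c * (a ^ (r + 1) * B + a ^ (r + 1 + 1)) := by ring

end Pool.Agent.SMQ
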