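import Pool.Agent.Lib.MP_452a87_nt.SpecK

set_option autoImplicit false

namespace Pool.Agent.SMQ

open MvPolynomial

namespace WAux

variable {ι : Type} [Fintype ι] [DecidableEq ι] {r H M : ℕ}

abbrev II (ι : Type) (r H M : ℕ) : Type :=
  (Fin r × ι → Fin (H + 1)) × (Fin r → Fin (H + 1)) × Fin (M + 1)

/-- exponent vector -/
def ex (i : II ι r H M) : Option (BU ι r) → ℕ := fun o =>
  o.elim (i.2.2 : ℕ) (Sum.elim (fun p => (i.1 p : ℕ)) (fun j => (i.2.1 j : ℕ)))

/-- exponent vector -/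
noncomputable def exf (i : II ι r H M) : Option (BU ι r) →₀ ℕ :=
  Finsupp.equivFunOnFinite.symm (ex i)

theorem exf_inj : Function.Injective (exf : II ι r H M → _) := by
  intro i i' h
  have h1 : ex i = ex i' := Finsupp.equivFunOnFinite.symm.injective h
  have h2 : i.2.2 = i'.2.2 := Fin.ext (congrFun h1 none)
  have h3 : i.1 = i'.1 := by
    funext p
    exact Fin.ext (congrFun h1 (some (Sum.inl p)))
  have h4 : i.2.1 = i'.2.1 := by
    funext j
    exact Fin.ext (congrFun h1 (some (Sum.inr j)))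
  exact Prod.ext h3 (Prod.ext h4 h2)

theorem exf_sum (i : II ι r H M) : (exf i).sum (fun _ e => e) =
    (i.2.2 : ℕ) + (∑ p, (i.1 p : ℕ) + ∑ j, (i.2.1 j : ℕ)) := by
  rw [Finsupp.sum_fintype _ _ (fun _ => rfl), Fintype.sum_option, Fintype.sum_sum_type]
  rfl

/-- the polynomial -/
noncomputable def WW (w : II ι r H M → ℤ) : MvPolynomial (Option (BU ι r)) ℤ :=
  ∑ i, monomial (exf i) (w i)

theorem coeff_WW (w : II ι r H M → ℤ) (m : Option (BU ι r) →₀ ℕ) :
    (WW w).coeff m = ∑ i, if exf i = m then w i else 0 := by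
  unfold WW
  rw [coeff_sum]
  refine Finset.sum_congr rfl fun i _ => ?_
  rw [coeff_monomial]

theorem coeff_WW_exf (w : II ι r H M → ℤ) (i : II ι r H M) : (WW w).coeff (exf i) = w i := by
  rw [coeff_WW, Finset.sum_eq_single i]
  · rw [if_pos rfl]
  · intro i' _ hi
    rw [if_neg]
    intro h
    exact hi (exf_inj h)
  · intro h
    exact absurd (Finset.mem_univ _) h

theorem coeff_WW_zero (w : II ι r H M → ℤ) (m : Option (BU ι r) →₀ ℕ)
    (hm : ∀ i : II ι r H M, exf i ≠ m) : (WW w).coeff m = 0 := by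
  rw [coeff_WW]
  exact Finset.sum_eq_zero fun i _ => if_neg (hm i)

theorem aeval_WW (w : II ι r H M → ℤ) (z : ℂ) (u : Fin r × ι → ℂ) (v : Fin r → ℂ) :
    aeval (ev z (Sum.elim u v)) (WW w) = ∑ i : II ι r H M, (w i : ℂ) *
      ((∏ p, u p ^ (i.1 p : ℕ)) * (∏ j, v j ^ (i.2.1 j : ℕ)) * z ^ (i.2.2 : ℕ)) := by
  unfold WW
  rw [map_sum]
  refine Finset.sum_congr rfl fun i _ => ?_
  rw [aeval_monomial, Finsupp.prod_fintype _ _ (fun _ => pow_zero _), Fintype.prod_option,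
    Fintype.prod_sum_type]
  have e : (algebraMap ℤ ℂ) (w i) = (w i : ℂ) := rfl
  rw [e]
  congr 1
  show z ^ (i.2.2 : ℕ) * ((∏ p, u p ^ (i.1 p : ℕ)) * (∏ j, v j ^ (i.2.1 j : ℕ))) = _
  ring

end WAux

open WAux

theorem pW (hPG : S_PG) (hW1 : S_W1) (hW2 : S_W2) (hL1s : S_L1s) (_hL1a : S_L1a) : S_W := by
  intro ι _ _ r
  obtain ⟨n, hn⟩ : ∃ n, n = Fintype.card ι := ⟨_, rfl⟩
  obtain ⟨C1, hC1⟩ : ∃ C1, C1 = r * n + r + 1 + n * r + (n + 1) := ⟨_, rfl⟩
  refine ⟨(C1 + r + 3) * (2 ^ (r * n + 1) * (r + 1) ^ r), ?_, ?_⟩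
  · have : 0 < (C1 + r + 3) * (2 ^ (r * n + 1) * (r + 1) ^ r) := by positivity
    exact this
  intro ξ s d f hs hd hPP hSz
  obtain ⟨Q, hQ⟩ : ∃ Q, Q = 2 ^ (r * n) * (r + 1) ^ r * s := ⟨_, rfl⟩
  have hQ1 : 1 ≤ Q := by
    have : 0 < 2 ^ (r * n) * (r + 1) ^ r * s := by positivity
    omega
  obtain ⟨M, hM⟩ : ∃ M, M = 2 * Q := ⟨_, rfl⟩
  obtain ⟨H, hH⟩ : ∃ H, H = d * M := ⟨_, rfl⟩
  have hM1 : 1 ≤ M := by omega
  have hMH : M ≤ H := by rw [hH]; exact Nat.le_mul_of_pos_left _ (by omega)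
  have hH1 : 1 ≤ H := le_trans hM1 hMH
  obtain ⟨B, hB⟩ : ∃ B, B = (C1 + r + 3) * H := ⟨_, rfl⟩
  have hB1 : 1 ≤ B := by
    rw [hB]
    have : 0 < (C1 + r + 3) * H := by positivity
    exact this
  have hCsd : (C1 + r + 3) * (2 ^ (r * n + 1) * (r + 1) ^ r) * s * d = B := by
    rw [hB, hH, hM, hQ, pow_succ]
    ring
  rw [hCsd]
  have hcardI : Fintype.card (II ι r H M) = (H + 1) ^ (r * n) * ((H + 1) ^ r * (M + 1)) := by
    simp [II, hn]
  have hcardG : Fintype.card (Fin r × ι → Fin (2 * H + 1)) = (2 * H + 1) ^ (r * n) := by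
    simp [hn]
  obtain ⟨g, hg⟩ : ∃ g : II ι r H M → (Fin r × ι → Fin (2 * H + 1)) → MvPolynomial ι ℤ,
      g = fun i γ => (GG f (fun p => (i.1 p : ℕ)) (fun j => (i.2.1 j : ℕ)) (i.2.2 : ℕ)).coeff
        (Finsupp.equivFunOnFinite.symm fun p => (γ p : ℕ)) := ⟨_, rfl⟩
  have hα : ∀ (i : II ι r H M) p, (i.1 p : ℕ) ≤ H := fun i p => by have := (i.1 p).2; omega
  have hb : ∀ (i : II ι r H M) j, (i.2.1 j : ℕ) ≤ H := fun i j => by have := (i.2.1 j).2; omega
  have hc : ∀ (i : II ι r H M), (i.2.2 : ℕ) ≤ M := fun i => by have := (i.2.2).2; omega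
  have hdeg : ∀ i γ, (g i γ).totalDegree ≤ (r + 1) * H := by
    intro i γ
    rw [hg]
    refine ((hW1 ι r H f _ _ (i.2.2 : ℕ) (hα i) (hb i)).2 _).trans ?_
    have h1 : (i.2.2 : ℕ) * f.totalDegree ≤ M * d := Nat.mul_le_mul (hc i) hSz.1
    calc r * H + (i.2.2 : ℕ) * f.totalDegree ≤ r * H + M * d := by omega
      _ = (r + 1) * H := by rw [hH]; ring
  have hpow : ∀ x : ℕ, x + 1 ≤ 2 ^ x := fun x => Nat.lt_two_pow_self
  have hl1 : l1 f ≤ 2 ^ ((n + 1) * d) := by rw [hn]; exact hL1s ι f d hSz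
  have hcoef : ∀ γ m, ∑ i, |(g i γ).coeff m| ≤ 2 ^ (C1 * H) := by
    intro γ m
    have h1 : ∀ i : II ι r H M, |(g i γ).coeff m| ≤ ((2 ^ ((n * r + (n + 1)) * H) : ℕ) : ℤ) := by
      intro i
      rw [hg]
      refine (hW2 ι r H f _ _ (i.2.2 : ℕ) (hb i) _ m).trans ?_
      rw [Nat.cast_le]
      calc 2 ^ (Fintype.card ι * r * H) * l1 f ^ (i.2.2 : ℕ)
          ≤ 2 ^ (n * r * H) * (2 ^ ((n + 1) * d)) ^ (i.2.2 : ℕ) := by
            rw [hn]
            rw [hn] at hl1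
            exact Nat.mul_le_mul_left _ (Nat.pow_le_pow_left hl1 _)
        _ ≤ 2 ^ (n * r * H) * (2 ^ ((n + 1) * d)) ^ M :=
            Nat.mul_le_mul_left _ (Nat.pow_le_pow_right (by positivity) (hc i))
        _ = 2 ^ ((n * r + (n + 1)) * H) := by
            rw [← pow_mul, ← pow_add, hH]
            congr 1
            ring
    calc ∑ i, |(g i γ).coeff m| ≤ ∑ _i : II ι r H M, ((2 ^ ((n * r + (n + 1)) * H) : ℕ) : ℤ) :=
          Finset.sum_le_sum fun i _ => h1 i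
      _ = ((Fintype.card (II ι r H M) * 2 ^ ((n * r + (n + 1)) * H) : ℕ) : ℤ) := by
          rw [Finset.sum_const, Finset.card_univ, nsmul_eq_mul]
          push_cast
          ring
      _ ≤ ((2 ^ (C1 * H) : ℕ) : ℤ) := by
          rw [Nat.cast_le, hcardI]
          have h2 : (H + 1) ^ (r * n) * ((H + 1) ^ r * (M + 1)) ≤
              (2 ^ H) ^ (r * n) * ((2 ^ H) ^ r * 2 ^ H) := by
            refine Nat.mul_le_mul (Nat.pow_le_pow_left (hpow H) _) (Nat.mul_le_mul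
              (Nat.pow_le_pow_left (hpow H) _) ?_)
            exact (hpow M).trans (Nat.pow_le_pow_right (by norm_num) hMH)
          refine (Nat.mul_le_mul_right _ h2).trans (le_of_eq ?_)
          rw [← pow_mul, ← pow_mul, ← pow_add, ← pow_add, ← pow_add, hC1]
          congr 1
          ring
      _ = 2 ^ (C1 * H) := by push_cast; rfl
  have hK : Kc ξ ((r + 1) * H) (B + C1 * H + 1) ^ Fintype.card (Fin r × ι → Fin (2 * H + 1)) <
      2 ^ (B * Fintype.card (II ι r H M)) := by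
    rw [hcardG, hcardI]
    have ha1 : 1 ≤ (r + 1) * H := by
      have : 0 < (r + 1) * H := by positivity
      exact this
    refine (Nat.pow_le_pow_left (hPP _ _ ha1 (by omega)) _).trans_lt ?_
    rw [← pow_mul]
    apply Nat.pow_lt_pow_right (by norm_num)
    have e1 : s * (((r + 1) * H) ^ r * (B + C1 * H + 1) + ((r + 1) * H) ^ (r + 1)) =
        s * (r + 1) ^ r * H ^ r * (B + C1 * H + 1 + (r + 1) * H) := by
      rw [pow_succ, mul_pow]
      ring
    rw [e1]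
    have e2 : (2 * H + 1) ^ (r * n) ≤ 2 ^ (r * n) * (H + 1) ^ (r * n) := by
      rw [← mul_pow]
      exact Nat.pow_le_pow_left (by omega) _
    have e3 : H ^ r ≤ (H + 1) ^ r := Nat.pow_le_pow_left (by omega) _
    calc s * (r + 1) ^ r * H ^ r * (B + C1 * H + 1 + (r + 1) * H) * (2 * H + 1) ^ (r * n)
        ≤ s * (r + 1) ^ r * (H + 1) ^ r * (B + C1 * H + 1 + (r + 1) * H) *
          (2 ^ (r * n) * (H + 1) ^ (r * n)) := by gcongr
      _ = (Q * (B + C1 * H + 1 + (r + 1) * H)) * ((H + 1) ^ (r * n) * (H + 1) ^ r) := by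
          rw [hQ]; ring
      _ < (B * (M + 1)) * ((H + 1) ^ (r * n) * (H + 1) ^ r) := by
          apply Nat.mul_lt_mul_of_pos_right _ (by positivity)
          have h3 : C1 * H + 1 + (r + 1) * H ≤ B := by rw [hB]; nlinarith
          calc Q * (B + C1 * H + 1 + (r + 1) * H) = Q * B + Q * (C1 * H + 1 + (r + 1) * H) := by
                ring
            _ ≤ Q * B + Q * B := by
                have := Nat.mul_le_mul_left Q h3
                omega
            _ < B * (M + 1) := by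
                rw [hM]
                have : B * (2 * Q + 1) = Q * B + Q * B + B := by ring
                omega
      _ = B * ((H + 1) ^ (r * n) * ((H + 1) ^ r * (M + 1))) := by ring
  obtain ⟨w, hw0, hwB, hwv⟩ := hPG ι ℂ (II ι r H M) (Fin r × ι → Fin (2 * H + 1)) ξ g
    ((r + 1) * H) B (C1 * H) hdeg hcoef hK
  refine ⟨WW w, ?_, ⟨?_, ?_⟩, ?_⟩
  · intro h
    apply hw0
    funext i
    have := coeff_WW_exf w i
    rw [h, coeff_zero] at this
    exact this.symm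
  · unfold WW
    refine totalDegree_finsetSum_le fun i _ => ?_
    refine (totalDegree_monomial_le _ _).trans ?_
    have h0 : ((exf i).sum fun _ => id) = (i.2.2 : ℕ) + (∑ p, (i.1 p : ℕ) + ∑ j, (i.2.1 j : ℕ)) :=
      exf_sum i
    rw [h0]
    have h1 : ∑ p : Fin r × ι, (i.1 p : ℕ) ≤ r * n * H := by
      calc ∑ p : Fin r × ι, (i.1 p : ℕ) ≤ ∑ _p : Fin r × ι, H := Finset.sum_le_sum fun p _ => hα i p
        _ = r * n * H := by simp [hn]
    have h2 : ∑ j : Fin r, (i.2.1 j : ℕ) ≤ r * H := by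
      calc ∑ j : Fin r, (i.2.1 j : ℕ) ≤ ∑ _j : Fin r, H := Finset.sum_le_sum fun j _ => hb i j
        _ = r * H := by simp
    have h3 := hc i
    have h4 : M + (r * n * H + r * H) ≤ B := by
      rw [hB, hC1]
      nlinarith
    omega
  · intro m
    by_cases h : ∃ i : II ι r H M, exf i = m
    · obtain ⟨i, rfl⟩ := h
      rw [coeff_WW_exf]
      exact (hwB i).le
    · push Not at h
      rw [coeff_WW_zero w m h, abs_zero]
      positivity
  · intro u
    rw [aeval_WW]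
    have e1 : ∀ i : II ι r H M, (w i : ℂ) * ((∏ p, u p ^ (i.1 p : ℕ)) *
        (∏ j, psi u ξ j ^ (i.2.1 j : ℕ)) * aeval ξ f ^ (i.2.2 : ℕ)) =
        ∑ γ : Fin r × ι → Fin (2 * H + 1), (w i : ℂ) * aeval ξ (g i γ) * ∏ p, u p ^ (γ p : ℕ) := by
      intro i
      rw [(hW1 ι r H f _ _ (i.2.2 : ℕ) (hα i) (hb i)).1 ℂ ξ u, Finset.mul_sum]
      refine Finset.sum_congr rfl fun γ _ => ?_
      rw [hg]
      ring
    rw [Finset.sum_congr rfl fun i _ => e1 i, Finset.sum_comm]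
    refine Finset.sum_eq_zero fun γ _ => ?_
    rw [← Finset.sum_mul, hwv γ, zero_mul]

end Pool.Agent.SMQ
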