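import Pool.Agent.Lib.MP_452a87_nt.SpecK

/-!
# Part K: `S_W1`, the evaluation and the exponents of `GG`
-/

set_option autoImplicit false

namespace Pool.Agent.SMQ

open MvPolynomial

namespace W1Aux

/-- All coefficients have total degree at most `e`. -/
def PD {κ ι : Type} (G : MvPolynomial κ (MvPolynomial ι ℤ)) (e : ℕ) : Prop :=
  ∀ γ, (G.coeff γ).totalDegree ≤ e

theorem PD_mono {κ ι : Type} {G : MvPolynomial κ (MvPolynomial ι ℤ)} {e e' : ℕ} (h : PD G e)
    (he : e ≤ e') : PD G e' := fun γ => (h γ).trans he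

theorem PD_mul {κ ι : Type} {G G' : MvPolynomial κ (MvPolynomial ι ℤ)} {e e' : ℕ} (h : PD G e)
    (h' : PD G' e') : PD (G * G') (e + e') := by
  classical
  intro γ
  rw [coeff_mul]
  refine totalDegree_finsetSum_le fun x _ => ?_
  exact (totalDegree_mul _ _).trans (add_le_add (h _) (h' _))

theorem PD_C {κ ι : Type} (g : MvPolynomial ι ℤ) :
    PD (C g : MvPolynomial κ (MvPolynomial ι ℤ)) g.totalDegree := by
  classical
  intro γ
  rw [coeff_C]
  split_ifs
  · exact le_refl _
  · rw [totalDegree_zero]
    exact Nat.zero_le _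

theorem PD_one {κ ι : Type} : PD (1 : MvPolynomial κ (MvPolynomial ι ℤ)) 0 := by
  have h := PD_C (κ := κ) (1 : MvPolynomial ι ℤ)
  rw [totalDegree_one, C_1] at h
  exact h

theorem PD_X {κ ι : Type} (p : κ) : PD (X p : MvPolynomial κ (MvPolynomial ι ℤ)) 0 := by
  classical
  intro γ
  rw [coeff_X]
  split_ifs
  · rw [totalDegree_one]
  · rw [totalDegree_zero]

theorem PD_pow {κ ι : Type} {G : MvPolynomial κ (MvPolynomial ι ℤ)} {e : ℕ} (h : PD G e)
    (n : ℕ) : PD (G ^ n) (n * e) := by
  induction n with
  | zero =>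
    rw [pow_zero, zero_mul]
    exact PD_one
  | succ n ih =>
    rw [pow_succ, Nat.succ_mul]
    exact PD_mul ih h

theorem PD_prod {κ ι I : Type} (s : Finset I) (G : I → MvPolynomial κ (MvPolynomial ι ℤ))
    (e : I → ℕ) (h : ∀ i ∈ s, PD (G i) (e i)) : PD (∏ i ∈ s, G i) (∑ i ∈ s, e i) := by
  classical
  induction s using Finset.induction_on with
  | empty =>
    rw [Finset.prod_empty, Finset.sum_empty]
    exact PD_one
  | insert a s ha ih =>
    rw [Finset.prod_insert ha, Finset.sum_insert ha]
    exact PD_mul (h a (Finset.mem_insert_self _ _))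
      (ih fun i hi => h i (Finset.mem_insert_of_mem hi))

theorem PD_sum {κ ι I : Type} (s : Finset I) (G : I → MvPolynomial κ (MvPolynomial ι ℤ))
    (e : ℕ) (h : ∀ i ∈ s, PD (G i) e) : PD (∑ i ∈ s, G i) e := by
  intro γ
  rw [coeff_sum]
  exact totalDegree_finsetSum_le fun i hi => h i hi γ

theorem deg_GG {ι : Type} [Fintype ι] [DecidableEq ι] {r H : ℕ} (f : MvPolynomial ι ℤ)
    (α : Fin r × ι → ℕ) (b : Fin r → ℕ) (c : ℕ) (hα : ∀ p, α p ≤ H) (hb : ∀ i, b i ≤ H)
    (p : Fin r × ι) : degreeOf p (GG f α b c) ≤ 2 * H := by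
  unfold GG
  refine (degreeOf_mul_le _ _ _).trans ?_
  rw [degreeOf_C, add_zero]
  refine (degreeOf_mul_le _ _ _).trans ?_
  rw [two_mul]
  refine add_le_add ?_ ?_
  · refine (degreeOf_prod_le _ _ _).trans ?_
    refine le_trans (Finset.sum_le_sum (g := fun p' => if p' = p then α p' else 0)
      fun p' _ => ?_) ?_
    · refine (degreeOf_pow_le _ _ _).trans ?_
      rw [degreeOf_X]
      by_cases h : p' = p
      · rw [if_pos h.symm, if_pos h, mul_one]
      · rw [if_neg (fun h' => h h'.symm), if_neg h, mul_zero]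
    · rw [Finset.sum_ite_eq' Finset.univ p α, if_pos (Finset.mem_univ _)]
      exact hα p
  · refine (degreeOf_prod_le _ _ _).trans ?_
    refine le_trans (Finset.sum_le_sum (g := fun i => if i = p.1 then b i else 0)
      fun i _ => ?_) ?_
    · refine (degreeOf_pow_le _ _ _).trans ?_
      have hd : degreeOf p (∑ j, X (i, j) * C (X j) :
          MvPolynomial (Fin r × ι) (MvPolynomial ι ℤ)) ≤ if i = p.1 then 1 else 0 := by
        refine (degreeOf_sum_le _ _ _).trans ?_
        refine Finset.sup_le fun j _ => ?_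
        refine (degreeOf_mul_le _ _ _).trans ?_
        rw [degreeOf_C, add_zero, degreeOf_X]
        by_cases h : i = p.1
        · rw [if_pos h]
          split_ifs
          · exact le_refl _
          · exact Nat.zero_le _
        · rw [if_neg h, if_neg]
          intro h'
          exact h (by rw [h'])
      refine (Nat.mul_le_mul_left _ hd).trans ?_
      split_ifs <;> simp
    · rw [Finset.sum_ite_eq' Finset.univ p.1 b, if_pos (Finset.mem_univ _)]
      exact hb p.1

end W1Aux

open W1Aux

theorem pW1 : S_W1 := by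
  classical
  intro ι _ _ r H f α b c hα hb
  constructor
  · intro Ω _ ξ u
    have h1 : eval₂ (aeval ξ : MvPolynomial ι ℤ →ₐ[ℤ] Ω).toRingHom u (GG f α b c) =
        (∏ p, u p ^ α p) * (∏ i, psi u ξ i ^ b i) * aeval ξ f ^ c := by
      rw [← coe_eval₂Hom]
      unfold GG psi
      rw [map_mul, map_mul, map_prod, map_prod]
      congr 1
      · congr 1
        · refine Finset.prod_congr rfl fun p _ => ?_
          rw [map_pow, coe_eval₂Hom, eval₂_X]
        · refine Finset.prod_congr rfl fun i _ => ?_
          rw [map_pow, map_sum]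
          congr 1
          refine Finset.sum_congr rfl fun j _ => ?_
          rw [map_mul, coe_eval₂Hom, eval₂_X, eval₂_C]
          congr 1
          show (aeval ξ) (X j) = ξ j
          rw [aeval_X]
      · rw [coe_eval₂Hom, eval₂_C]
        show (aeval ξ) (f ^ c) = _
        rw [map_pow]
    rw [← h1, eval₂_eq']
    let e : (Fin r × ι → Fin (2 * H + 1)) → (Fin r × ι →₀ ℕ) := fun γ =>
      Finsupp.equivFunOnFinite.symm fun p => (γ p : ℕ)
    have he : Function.Injective e := by
      intro γ γ' h
      funext p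
      have := Finsupp.equivFunOnFinite.symm.injective h
      exact Fin.ext (congrFun this p)
    have h2 := Finset.sum_image (s := Finset.univ) (f := fun d : Fin r × ι →₀ ℕ =>
      aeval ξ ((GG f α b c).coeff d) * ∏ p, u p ^ d p) (g := e) he.injOn
    have h3 : ∑ d ∈ (GG f α b c).support, (aeval ξ : MvPolynomial ι ℤ →ₐ[ℤ] Ω).toRingHom
        (coeff d (GG f α b c)) * ∏ i, u i ^ d i = ∑ d ∈ Finset.univ.image e,
        aeval ξ ((GG f α b c).coeff d) * ∏ p, u p ^ d p := by
      refine Finset.sum_subset ?_ ?_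
      · intro d hd
        rw [Finset.mem_image]
        refine ⟨fun p => ⟨d p, ?_⟩, Finset.mem_univ _, ?_⟩
        · exact Nat.lt_succ_of_le ((monomial_le_degreeOf p hd).trans
            (deg_GG f α b c hα hb p))
        · ext p
          rfl
      · intro d _ hd
        rw [notMem_support_iff] at hd
        rw [hd, map_zero, zero_mul]
    rw [h3, h2]
    rfl
  · intro γ
    have h1 : PD (∏ p, X p ^ α p : MvPolynomial (Fin r × ι) (MvPolynomial ι ℤ)) 0 := by
      have := PD_prod Finset.univ (fun p => (X p ^ α p : MvPolynomial (Fin r × ι)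
        (MvPolynomial ι ℤ))) (fun _ => 0) (fun p _ => by
          have := PD_pow (PD_X (ι := ι) p) (α p)
          rw [mul_zero] at this
          exact this)
      rw [Finset.sum_const_zero] at this
      exact this
    have h2 : PD (∏ i, (∑ j, X (i, j) * C (X j)) ^ b i :
        MvPolynomial (Fin r × ι) (MvPolynomial ι ℤ)) (r * H) := by
      refine PD_mono (PD_prod Finset.univ _ (fun i => b i * 1) fun i _ => PD_pow ?_ _) ?_
      · refine PD_sum _ _ _ fun j _ => ?_
        have := PD_mul (PD_X (ι := ι) (i, j)) (PD_C (κ := Fin r × ι) (X j : MvPolynomial ι ℤ))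
        rw [totalDegree_X, zero_add] at this
        exact this
      · refine (Finset.sum_le_card_nsmul Finset.univ _ H fun i _ => ?_).trans ?_
        · rw [mul_one]
          exact hb i
        · rw [Finset.card_univ, Fintype.card_fin, smul_eq_mul]
    have h3 := PD_mul (PD_mul h1 h2) (PD_mono (PD_C (κ := Fin r × ι) (f ^ c))
      (totalDegree_pow f c))
    rw [zero_add] at h3
    exact h3 γ

end Pool.Agent.SMQ
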