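import Pool.Agent.Lib.MP_452a87_nt.SpecK

/-!
# Part K: the coefficients of `GG` (W2)
-/

set_option autoImplicit false

namespace Pool.Agent.SMQ

open MvPolynomial

namespace W2Aux

/-- The sum of the `l1` of the coefficients. -/
noncomputable def LL {σ ι : Type} (G : MvPolynomial σ (MvPolynomial ι ℤ)) : ℕ :=
  ∑ γ ∈ G.support, l1 (G.coeff γ)

lemma l1_zero {ι : Type} : l1 (0 : MvPolynomial ι ℤ) = 0 := by
  simp [l1]

lemma LL_eq {σ ι : Type} (G : MvPolynomial σ (MvPolynomial ι ℤ)) (s : Finset (σ →₀ ℕ))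
    (hs : G.support ⊆ s) : LL G = ∑ γ ∈ s, l1 (G.coeff γ) := by
  unfold LL
  refine Finset.sum_subset hs fun γ _ h => ?_
  rw [MvPolynomial.notMem_support_iff.mp h, l1_zero]

lemma LL_add {σ ι : Type} (h1 : ∀ f g : MvPolynomial ι ℤ, l1 (f + g) ≤ l1 f + l1 g)
    (G H : MvPolynomial σ (MvPolynomial ι ℤ)) : LL (G + H) ≤ LL G + LL H := by
  classical
  rw [LL_eq G (G.support ∪ H.support) Finset.subset_union_left,
    LL_eq H (G.support ∪ H.support) Finset.subset_union_right,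
    LL_eq (G + H) (G.support ∪ H.support) MvPolynomial.support_add, ← Finset.sum_add_distrib]
  refine Finset.sum_le_sum fun γ _ => ?_
  rw [MvPolynomial.coeff_add]
  exact h1 _ _

lemma LL_zero {σ ι : Type} : LL (0 : MvPolynomial σ (MvPolynomial ι ℤ)) = 0 := by
  simp [LL]

lemma LL_sum {σ ι I : Type} (h1 : ∀ f g : MvPolynomial ι ℤ, l1 (f + g) ≤ l1 f + l1 g)
    (s : Finset I) (G : I → MvPolynomial σ (MvPolynomial ι ℤ)) :
    LL (∑ i ∈ s, G i) ≤ ∑ i ∈ s, LL (G i) := by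
  classical
  induction s using Finset.induction_on with
  | empty => simp [LL_zero]
  | insert a s ha ih =>
    rw [Finset.sum_insert ha, Finset.sum_insert ha]
    exact (LL_add h1 _ _).trans (Nat.add_le_add_left ih _)

lemma LL_monomial_mul {σ ι : Type} (h2 : ∀ f g : MvPolynomial ι ℤ, l1 (f * g) ≤ l1 f * l1 g)
    (γ : σ →₀ ℕ) (g : MvPolynomial ι ℤ) (H : MvPolynomial σ (MvPolynomial ι ℤ)) :
    LL (monomial γ g * H) ≤ l1 g * LL H := by
  classical
  have hsub : (monomial γ g * H).support ⊆ H.support.image (fun δ => γ + δ) := by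
    intro δ hδ
    rw [MvPolynomial.mem_support_iff, MvPolynomial.coeff_monomial_mul'] at hδ
    have hle : γ ≤ δ := by
      by_contra hc
      rw [if_neg hc] at hδ
      exact hδ rfl
    rw [if_pos hle] at hδ
    rw [Finset.mem_image]
    refine ⟨δ - γ, ?_, add_tsub_cancel_of_le hle⟩
    rw [MvPolynomial.mem_support_iff]
    intro hc
    rw [hc, mul_zero] at hδ
    exact hδ rfl
  rw [LL_eq _ _ hsub, Finset.sum_image (fun a _ b _ hab => add_left_cancel hab), LL,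
    Finset.mul_sum]
  refine Finset.sum_le_sum fun δ _ => ?_
  rw [MvPolynomial.coeff_monomial_mul]
  exact h2 _ _

lemma LL_mul {σ ι : Type} (h1 : ∀ f g : MvPolynomial ι ℤ, l1 (f + g) ≤ l1 f + l1 g)
    (h2 : ∀ f g : MvPolynomial ι ℤ, l1 (f * g) ≤ l1 f * l1 g)
    (G H : MvPolynomial σ (MvPolynomial ι ℤ)) : LL (G * H) ≤ LL G * LL H := by
  have e : G * H = ∑ γ ∈ G.support, monomial γ (G.coeff γ) * H := by
    rw [← Finset.sum_mul, MvPolynomial.support_sum_monomial_coeff]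
  rw [e]
  refine (LL_sum h1 _ _).trans ?_
  rw [LL, Finset.sum_mul]
  exact Finset.sum_le_sum fun γ _ => LL_monomial_mul h2 _ _ _

lemma LL_C {σ ι : Type} (g : MvPolynomial ι ℤ) :
    LL (C g : MvPolynomial σ (MvPolynomial ι ℤ)) ≤ l1 g := by
  classical
  have hsub : (C g : MvPolynomial σ (MvPolynomial ι ℤ)).support ⊆ {0} := by
    intro δ hδ
    rw [MvPolynomial.mem_support_iff, MvPolynomial.coeff_C] at hδ
    rw [Finset.mem_singleton]
    by_contra hc
    rw [if_neg (Ne.symm hc)] at hδ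
    exact hδ rfl
  rw [LL_eq _ _ hsub, Finset.sum_singleton, MvPolynomial.coeff_C, if_pos rfl]

lemma LL_pow {σ ι : Type} (h1 : ∀ f g : MvPolynomial ι ℤ, l1 (f + g) ≤ l1 f + l1 g)
    (h2 : ∀ f g : MvPolynomial ι ℤ, l1 (f * g) ≤ l1 f * l1 g)
    (h3 : l1 (1 : MvPolynomial ι ℤ) = 1)
    (G : MvPolynomial σ (MvPolynomial ι ℤ)) (n : ℕ) : LL (G ^ n) ≤ LL G ^ n := by
  induction n with
  | zero =>
    rw [pow_zero, pow_zero, ← map_one (C : MvPolynomial ι ℤ →+* MvPolynomial σ (MvPolynomial ι ℤ))]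
    exact (LL_C _).trans h3.le
  | succ n ih =>
    rw [pow_succ, pow_succ]
    exact (LL_mul h1 h2 _ _).trans (Nat.mul_le_mul_right _ ih)

lemma LL_prod {σ ι I : Type} (h1 : ∀ f g : MvPolynomial ι ℤ, l1 (f + g) ≤ l1 f + l1 g)
    (h2 : ∀ f g : MvPolynomial ι ℤ, l1 (f * g) ≤ l1 f * l1 g)
    (h3 : l1 (1 : MvPolynomial ι ℤ) = 1) (s : Finset I)
    (G : I → MvPolynomial σ (MvPolynomial ι ℤ)) :
    LL (∏ i ∈ s, G i) ≤ ∏ i ∈ s, LL (G i) := by
  classical
  induction s using Finset.induction_on with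
  | empty =>
    rw [Finset.prod_empty, Finset.prod_empty,
      ← map_one (C : MvPolynomial ι ℤ →+* MvPolynomial σ (MvPolynomial ι ℤ))]
    exact (LL_C _).trans h3.le
  | insert a s ha ih =>
    rw [Finset.prod_insert ha, Finset.prod_insert ha]
    exact (LL_mul h1 h2 _ _).trans (Nat.mul_le_mul_left _ ih)

lemma LL_X {σ ι : Type} (h2 : ∀ f g : MvPolynomial ι ℤ, l1 (f * g) ≤ l1 f * l1 g)
    (h3 : l1 (1 : MvPolynomial ι ℤ) = 1) (p : σ) :
    LL (X p : MvPolynomial σ (MvPolynomial ι ℤ)) ≤ 1 := by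
  have h := LL_monomial_mul (σ := σ) h2 (Finsupp.single p 1) (1 : MvPolynomial ι ℤ)
    (C (1 : MvPolynomial ι ℤ))
  rw [map_one C, mul_one] at h
  refine h.trans ?_
  rw [h3, one_mul, ← map_one (C : MvPolynomial ι ℤ →+* MvPolynomial σ (MvPolynomial ι ℤ))]
  exact (LL_C _).trans h3.le

lemma l1_coeff_le {σ ι : Type} (G : MvPolynomial σ (MvPolynomial ι ℤ)) (γ : σ →₀ ℕ) :
    l1 (G.coeff γ) ≤ LL G := by
  classical
  by_cases h : γ ∈ G.support
  · exact Finset.single_le_sum (f := fun γ => l1 (G.coeff γ)) (fun _ _ => Nat.zero_le _) h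
  · rw [MvPolynomial.notMem_support_iff.mp h, l1_zero]
    exact Nat.zero_le _

end W2Aux

open W2Aux in
theorem pW2 (hL1a : S_L1a) : S_W2 := by
  intro ι _ _ r H f α b c hb γ m
  obtain ⟨h1, h2, hpow, hC, hX, hcoeff, -, -, -, -⟩ := hL1a ι
  have h3 : l1 (1 : MvPolynomial ι ℤ) = 1 := by
    rw [← map_one (C : ℤ →+* MvPolynomial ι ℤ), hC]
    rfl
  refine (hcoeff _ m).trans ?_
  refine Int.ofNat_le.mpr ((l1_coeff_le _ γ).trans ?_)
  unfold GG
  have e1 : LL (∏ p, (X p : MvPolynomial (Fin r × ι) (MvPolynomial ι ℤ)) ^ α p) ≤ 1 := by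
    refine (LL_prod h1 h2 h3 _ _).trans ?_
    refine Finset.prod_le_one' fun p _ => ?_
    refine (LL_pow h1 h2 h3 _ _).trans ?_
    exact (Nat.pow_le_pow_left (LL_X h2 h3 p) _).trans (one_pow _).le
  have e2 : LL (∏ i : Fin r, (∑ j, (X (i, j) : MvPolynomial (Fin r × ι) (MvPolynomial ι ℤ)) *
      C (X j)) ^ b i) ≤ 2 ^ (Fintype.card ι * r * H) := by
    refine (LL_prod h1 h2 h3 _ _).trans ?_
    have e3 : ∀ i ∈ (Finset.univ : Finset (Fin r)),
        LL ((∑ j, (X (i, j) : MvPolynomial (Fin r × ι) (MvPolynomial ι ℤ)) * C (X j)) ^ b i) ≤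
          2 ^ (Fintype.card ι * H) := by
      intro i _
      refine (LL_pow h1 h2 h3 _ _).trans ?_
      have e4 : LL (∑ j, (X (i, j) : MvPolynomial (Fin r × ι) (MvPolynomial ι ℤ)) * C (X j)) ≤
          Fintype.card ι := by
        refine (LL_sum h1 _ _).trans ?_
        have e5 : ∀ j ∈ (Finset.univ : Finset ι),
            LL ((X (i, j) : MvPolynomial (Fin r × ι) (MvPolynomial ι ℤ)) * C (X j)) ≤ 1 := by
          intro j _
          refine (LL_mul h1 h2 _ _).trans ?_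
          have e6 := LL_X h2 h3 ((i, j) : Fin r × ι)
          have e7 := (LL_C (σ := Fin r × ι) (X j : MvPolynomial ι ℤ)).trans (hX j).le
          exact (Nat.mul_le_mul e6 e7).trans (mul_one 1).le
        refine (Finset.sum_le_sum e5).trans ?_
        simp
      calc LL (∑ j, (X (i, j) : MvPolynomial (Fin r × ι) (MvPolynomial ι ℤ)) * C (X j)) ^ b i
          ≤ (2 ^ Fintype.card ι) ^ b i :=
            Nat.pow_le_pow_left (e4.trans (Nat.lt_two_pow_self).le) _
        _ ≤ (2 ^ Fintype.card ι) ^ H := Nat.pow_le_pow_right (by positivity) (hb i)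
        _ = 2 ^ (Fintype.card ι * H) := by rw [pow_mul]
    refine (Finset.prod_le_prod' e3).trans ?_
    rw [Finset.prod_const, Finset.card_univ, Fintype.card_fin, ← pow_mul]
    apply le_of_eq
    congr 1
    ring
  have e8 : LL (C (f ^ c) : MvPolynomial (Fin r × ι) (MvPolynomial ι ℤ)) ≤ l1 f ^ c :=
    (LL_C _).trans (hpow f c)
  calc _ ≤ LL ((∏ p, (X p : MvPolynomial (Fin r × ι) (MvPolynomial ι ℤ)) ^ α p) *
        (∏ i : Fin r, (∑ j, (X (i, j) : MvPolynomial (Fin r × ι) (MvPolynomial ι ℤ)) *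
      C (X j)) ^ b i)) * LL (C (f ^ c) : MvPolynomial (Fin r × ι) (MvPolynomial ι ℤ)) :=
        LL_mul h1 h2 _ _
    _ ≤ (1 * 2 ^ (Fintype.card ι * r * H)) * l1 f ^ c :=
        Nat.mul_le_mul ((LL_mul h1 h2 _ _).trans (Nat.mul_le_mul e1 e2)) e8
    _ = 2 ^ (Fintype.card ι * r * H) * l1 f ^ c := by rw [one_mul]

end Pool.Agent.SMQ
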